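import Mathlib
import Pool.Agent.Helper15.Slots

set_option autoImplicit false

namespace Pool.Agent.Helper81.Box

open SimpleGraph Pool.Agent.Helper15.LEC Pool.Agent.Helper15.Slots

/-- degree as a cardinality of the neighbourhood -/
noncomputable def dg {V : Type} (G : SimpleGraph V) (v : V) : ℕ := (G.neighborSet v).ncard

theorem dg_eq {V : Type} (G : SimpleGraph V) (v : V) [Fintype (G.neighborSet v)] :
    G.degree v = dg G v := by
  rw [dg, ← SimpleGraph.card_neighborSet_eq_degree, ← Nat.card_coe_set_eq, Nat.card_eq_fintype_card]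

theorem dg_box {V W : Type} [Fintype V] [Fintype W] (G : SimpleGraph V) (H : SimpleGraph W)
    (x : V × W) : dg (G □ H) x = dg G x.1 + dg H x.2 := by
  classical
  rw [← dg_eq, ← dg_eq, ← dg_eq]
  convert SimpleGraph.degree_boxProd x

theorem dg_hom {V W : Type} [Finite V] {G : SimpleGraph V} {G' : SimpleGraph W} (f : W → V)
    (w : W) (hinj : Function.Injective f)
    (hf : ∀ a, G'.Adj w a → G.Adj (f w) (f a)) : dg G' w ≤ dg G (f w) := by
  refine Set.ncard_le_ncard_of_injOn f ?_ hinj.injOn (Set.toFinite _)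
  intro a ha
  exact hf a ha

section comap
variable {V W : Type} [Fintype V] [Fintype W] {D : ℕ}

theorem GG_comap (f : W ↪ V) {G : SimpleGraph V} (h : GG G D) : GG (G.comap f) D := by
  classical
  have hG1 : GG ((G.comap f).map f) D := GG_mono (G.map_comap_le f) h
  rw [GG_iff] at hG1 ⊢
  obtain ⟨μ, hr, g, hg⟩ := hG1
  have hran : ∀ x : V × Fin D, μ x ≠ x → ∃ w : W, f w = x.1 := by
    intro x hx
    have := hr.adj x hx
    rw [SimpleGraph.map_adj] at this
    obtain ⟨a, b, -, ha, -⟩ := this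
    exact ⟨a, ha⟩
  have hran2 : ∀ (w : W) (i : Fin D), ∃ w' : W, f w' = (μ (f w, i)).1 := by
    intro w i
    by_cases hx : μ (f w, i) = (f w, i)
    · exact ⟨w, by rw [hx]⟩
    · exact hran _ (by rw [hr.inv]; exact fun h => hx h.symm)
  choose ρ hρ using hran2
  let μ' : W × Fin D → W × Fin D := fun x => (ρ x.1 x.2, (μ (f x.1, x.2)).2)
  have key : ∀ x : W × Fin D, μ (f x.1, x.2) = (f (μ' x).1, (μ' x).2) := by
    intro x
    exact Prod.ext (hρ x.1 x.2).symm rfl
  have hout : ∀ (v : V) (i : Fin D), (∀ w, f w ≠ v) → μ (v, i) = (v, i) := by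
    intro v i hv
    by_contra hx
    obtain ⟨w, hw⟩ := hran _ hx
    exact hv w hw
  obtain ⟨up, up1, up2⟩ : ∃ up : (W × Fin D → Fin D) → (V × Fin D → Fin D),
      (∀ h' w i, up h' (f w, i) = h' (w, i)) ∧
      (∀ h' v i, (∀ w, f w ≠ v) → up h' (v, i) = g (v, i)) := by
    refine ⟨fun h' x => if hx : ∃ w, f w = x.1 then h' (hx.choose, x.2) else g x, ?_, ?_⟩
    · intro h' w i
      have hx : ∃ w', f w' = ((f w, i) : V × Fin D).1 := ⟨w, rfl⟩
      simp only
      rw [dif_pos hx]
      have h2 : hx.choose = w := f.injective hx.choose_spec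
      rw [h2]
    · intro h' v i hv
      exact dif_neg (fun ⟨w, hw⟩ => hv w hw)
  have hμ'fix : ∀ x, μ' x = x ↔ μ (f x.1, x.2) = (f x.1, x.2) := by
    intro x
    rw [key]
    constructor
    · intro h
      rw [h]
    · intro h
      obtain ⟨h1, h2⟩ := Prod.mk.inj h
      exact Prod.ext (f.injective h1) h2
  have hZ : Zs μ g = (∏ v ∈ (Finset.univ.map f)ᶜ, (FM ℤ (fun j => g (v, j))).det) *
      Zs μ' (fun x => g (f x.1, x.2)) := by
    unfold Zs
    rw [Finset.mul_sum]
    symm
    apply Finset.sum_of_injOn (e := up)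
    · intro h1 _ h2 _ heq
      funext x
      have := congrFun heq (f x.1, x.2)
      rw [up1, up1] at this
      exact this
    · intro h' _
      simp
    · intro k _ hk
      split_ifs with hc
      · exfalso
        apply hk
        refine ⟨fun x => k (f x.1, x.2), by simp, ?_⟩
        funext x
        obtain ⟨v, i⟩ := x
        by_cases hv : ∃ w, f w = v
        · obtain ⟨w, rfl⟩ := hv
          rw [up1]
        · have hv' : ∀ w, f w ≠ v := fun w hw => hv ⟨w, hw⟩
          rw [up2 _ _ _ hv', hc.2 _ (hout v i hv')]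
      · rfl
    · intro h' _
      have hiff : ((∀ x, h' (μ' x) = h' x) ∧ (∀ x, μ' x = x → h' x = g (f x.1, x.2))) ↔
          ((∀ x, up h' (μ x) = up h' x) ∧ (∀ x, μ x = x → up h' x = g x)) := by
        constructor
        · rintro ⟨a, b⟩
          constructor
          · rintro ⟨v, i⟩
            by_cases hv : ∃ w, f w = v
            · obtain ⟨w, rfl⟩ := hv
              have := key (w, i)
              simp only at this
              rw [this, up1, up1, Prod.mk.eta, a]
            · rw [hout v i (fun w hw => hv ⟨w, hw⟩)]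
          · rintro ⟨v, i⟩ hx
            by_cases hv : ∃ w, f w = v
            · obtain ⟨w, rfl⟩ := hv
              rw [up1]
              exact b (w, i) ((hμ'fix (w, i)).2 hx)
            · rw [up2 _ _ _ (fun w hw => hv ⟨w, hw⟩)]
        · rintro ⟨a, b⟩
          constructor
          · intro x
            have := a (f x.1, x.2)
            rw [key, up1, up1] at this
            exact this
          · intro x hx
            have := b (f x.1, x.2) ((hμ'fix x).1 hx)
            rw [up1] at this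
            exact this
      have hwt : wt (up h') = (∏ v ∈ (Finset.univ.map f)ᶜ, (FM ℤ (fun j => g (v, j))).det) *
          wt h' := by
        unfold wt
        rw [← Finset.prod_compl_mul_prod (Finset.univ.map f)
          (fun v => (FM ℤ (fun j => up h' (v, j))).det), Finset.prod_map]
        congr 1
        · apply Finset.prod_congr rfl
          intro v hv
          rw [Finset.mem_compl, Finset.mem_map] at hv
          congr 2
          funext j
          exact up2 h' v j (fun w hw => hv ⟨w, Finset.mem_univ _, hw⟩)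
        · apply Finset.prod_congr rfl
          intro w _
          congr 2
          funext j
          exact up1 h' w j
      by_cases hc : (∀ x, h' (μ' x) = h' x) ∧ (∀ x, μ' x = x → h' x = g (f x.1, x.2))
      · rw [if_pos hc, if_pos (hiff.1 hc), hwt]
      · rw [if_neg hc, if_neg (fun h => hc (hiff.2 h)), mul_zero]
  refine ⟨μ', ⟨?_, ?_, ?_, ?_⟩, ⟨_, right_ne_zero_of_mul (hZ ▸ hg)⟩⟩
  · intro x
    have h1 := hr.inv (f x.1, x.2)
    rw [key] at h1
    have h2 := key (μ' x)
    rw [h2] at h1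
    obtain ⟨h3, h4⟩ := Prod.mk.inj h1
    exact Prod.ext (f.injective h3) h4
  · intro x hx
    have h1 : μ (f x.1, x.2) ≠ (f x.1, x.2) := fun h => hx ((hμ'fix x).2 h)
    have h2 := hr.adj _ h1
    rw [key] at h2
    exact SimpleGraph.map_adj_apply.1 h2
  · intro x y hxy hx hy hh
    have h1 : μ (f x.1, x.2) ≠ (f x.1, x.2) := fun h => hx ((hμ'fix x).2 h)
    have h2 : μ (f y.1, y.2) ≠ (f y.1, y.2) := fun h => hy ((hμ'fix y).2 h)
    have h3 := hr.uniq _ _ (by simp only; rw [hxy]) h1 h2 (by rw [key, key, hh])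
    obtain ⟨-, h4⟩ := Prod.mk.inj h3
    exact Prod.ext hxy h4
  · intro u v huv
    obtain ⟨i, hi⟩ := hr.ex (f u) (f v) (SimpleGraph.map_adj_apply.2 huv)
    refine ⟨i, ?_⟩
    have := key (u, i)
    simp only at this
    rw [this] at hi
    exact f.injective hi

theorem GG_hom (f : W ↪ V) {G : SimpleGraph V} {G' : SimpleGraph W}
    (hf : ∀ a b, G'.Adj a b → G.Adj (f a) (f b)) (h : GG G D) : GG G' D := by
  classical
  exact GG_mono (fun a b hab => hf a b hab) (GG_comap f h)

end comap

section double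
variable {V : Type} [Fintype V] {D : ℕ}

/-- mirror doubling along a set of vertices -/
def dblG {V : Type} (G : SimpleGraph V) (S : Set V) : SimpleGraph (V × Bool) where
  Adj x y := (x.2 = y.2 ∧ G.Adj x.1 y.1) ∨ (x.2 ≠ y.2 ∧ x.1 = y.1 ∧ x.1 ∈ S)
  symm := ⟨by
    rintro x y (⟨h1, h2⟩ | ⟨h1, h2, h3⟩)
    · exact Or.inl ⟨h1.symm, h2.symm⟩
    · exact Or.inr ⟨h1.symm, h2.symm, h2 ▸ h3⟩⟩
  loopless := ⟨by
    rintro x (⟨h1, h2⟩ | ⟨h1, h2, h3⟩)
    · exact h2.ne rfl
    · exact h1 rfl⟩

theorem dblG_adj (G : SimpleGraph V) (S : Set V) (x y : V × Bool) :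
    (dblG G S).Adj x y ↔ (x.2 = y.2 ∧ G.Adj x.1 y.1) ∨ (x.2 ≠ y.2 ∧ x.1 = y.1 ∧ x.1 ∈ S) :=
  Iff.rfl

theorem GG_dblG {G : SimpleGraph V} {S : Set V} (hd : ∀ v ∈ S, dg G v < D) (h : GG G D) :
    GG (dblG G S) D := by
  classical
  rw [GG_iff] at h ⊢
  obtain ⟨μ, hr, hg⟩ := h
  have hleg : ∀ v, v ∈ S → ∃ j, μ (v, j) = (v, j) := fun v hv =>
    leg_exists hr v (by rw [dg_eq]; exact hd v hv)
  choose τ hτ using hleg
  let T : V × Fin D → Bool := fun x => decide (∃ h : x.1 ∈ S, x.2 = τ x.1 h)
  have hT0 : ∀ v j, T (v, j) = true ↔ ∃ h : v ∈ S, j = τ v h := by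
    intro v j
    simp [T]
  have hT : ∀ x, T x = true → μ x = x := by
    rintro ⟨v, j⟩ hx
    obtain ⟨hv, rfl⟩ := (hT0 v j).1 hx
    exact hτ v hv
  have hpos : ∀ v j b, T (v, j) = true → dbl μ T ((v, b), j) = ((v, !b), j) := by
    intro v j b hx
    simp only [dbl]
    rw [if_pos hx]
  have hneg : ∀ v j b, ¬ T (v, j) = true →
      dbl μ T ((v, b), j) = (((μ (v, j)).1, b), (μ (v, j)).2) := by
    intro v j b hx
    simp only [dbl]
    rw [if_neg hx]
  refine ⟨dbl μ T, ⟨dbl_invol hr.inv hT, ?_, ?_, ?_⟩, good_dbl hT hg⟩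
  · rintro ⟨⟨v, b⟩, j⟩ hx
    by_cases hj : T (v, j) = true
    · rw [hpos v j b hj]
      obtain ⟨hv, -⟩ := (hT0 v j).1 hj
      exact Or.inr ⟨by simp, rfl, hv⟩
    · rw [hneg v j b hj] at hx ⊢
      left
      have : μ (v, j) ≠ (v, j) := by
        intro h
        apply hx
        rw [h]
      exact ⟨rfl, hr.adj _ this⟩
  · rintro ⟨⟨v, b⟩, j⟩ ⟨⟨w, b'⟩, k⟩ hxy hx hy h
    obtain ⟨rfl, rfl⟩ := Prod.mk.inj hxy
    by_cases hj : T (v, j) = true
    · by_cases hk : T (v, k) = true
      · obtain ⟨_, rfl⟩ := (hT0 v j).1 hj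
        obtain ⟨_, rfl⟩ := (hT0 v k).1 hk
        rfl
      · exfalso
        rw [hpos v j b hj, hneg v k b hk] at h
        have := (Prod.mk.inj h).2
        simp at this
    · by_cases hk : T (v, k) = true
      · exfalso
        rw [hpos v k b hk, hneg v j b hj] at h
        have := (Prod.mk.inj h).2
        simp at this
      · rw [hneg v j b hj] at hx h
        rw [hneg v k b hk] at hy h
        have hx' : μ (v, j) ≠ (v, j) := by
          intro h; apply hx; rw [h]
        have hy' : μ (v, k) ≠ (v, k) := by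
          intro h; apply hy; rw [h]
        have := hr.uniq (v, j) (v, k) rfl hx' hy' (Prod.mk.inj h).1
        rw [(Prod.mk.inj this).2]
  · rintro ⟨u, b⟩ ⟨v, b'⟩ huv
    rw [dblG_adj] at huv
    rcases huv with ⟨h1, h2⟩ | ⟨h1, h2, h3⟩
    · obtain ⟨i, hi⟩ := hr.ex u v h2
      refine ⟨i, ?_⟩
      simp only at h1
      rw [hneg]
      · simp only [hi, h1]
      · intro hiτ
        rw [hT _ hiτ] at hi
        exact h2.ne hi
    · simp only at h1 h2 h3
      subst h2
      refine ⟨τ u h3, ?_⟩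
      rw [hpos _ _ _ ((hT0 _ _).2 ⟨h3, rfl⟩)]
      simp only
      cases b <;> cases b' <;> simp_all

end double

end Pool.Agent.Helper81.Box
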