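import Mathlib
import Pool.Agent.Helper81.Box1

set_option autoImplicit false

namespace Pool.Agent.Helper81.Box

open SimpleGraph Pool.Agent.Helper15.LEC Pool.Agent.Helper15.Slots

variable {V : Type} [Fintype V] {D : ℕ}

/-- a finite forest with at least two vertices has a vertex `w` with at most one neighbour `v` -/
theorem exists_leaf {W : Type} [Fintype W] [Nontrivial W] {T : SimpleGraph W} (hT : T.IsAcyclic) :
    ∃ w v : W, v ≠ w ∧ ∀ u, T.Adj w u → u = v := by
  classical
  obtain ⟨F, hTF, hF⟩ := exists_maximal_isAcyclic_of_le_isAcyclic (G := ⊤) le_top hT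
  have hF' : Maximal IsAcyclic F := by
    refine ⟨hF.prop.2, fun K hK hle => hF.le_of_ge ⟨le_top, hK⟩ hle⟩
  have htree : F.IsTree := maximal_isAcyclic_iff_isTree.1 hF'
  obtain ⟨w, hw⟩ := htree.exists_vert_degree_one_of_nontrivial
  rw [degree_eq_one_iff_existsUnique_adj] at hw
  obtain ⟨v, hv, huniq⟩ := hw
  exact ⟨w, v, hv.ne', fun u hu => huniq u (hTF hu)⟩

/-- adding a leaf -/
theorem GG_leaf {W : Type} [Fintype W] [DecidableEq W] {G : SimpleGraph V} {T : SimpleGraph W} {w v : W}
    (hvw : v ≠ w) (hu : ∀ u, T.Adj w u → u = v)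
    (hD : T.Adj w v → ∀ x, dg G x + dg T v ≤ D)
    (h : GG (G □ (T.comap (fun u : {u : W // u ≠ w} => u.1))) D) : GG (G □ T) D := by
  let v' : {u : W // u ≠ w} := ⟨v, hvw⟩
  let S : Set (V × {u : W // u ≠ w}) := {p | T.Adj w v ∧ p.2 = v'}
  have h1 : GG (dblG (G □ (T.comap (fun u : {u : W // u ≠ w} => u.1))) S) D := by
    apply GG_dblG _ h
    rintro ⟨x, u⟩ ⟨hadj, rfl⟩
    rw [dg_box]
    have h2 := hD hadj x
    have h3 : dg (T.comap (fun u : {u : W // u ≠ w} => u.1)) v' < dg T v := by
      refine (Set.ncard_image_of_injective _ (Subtype.val_injective)).symm.trans_lt ?_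
      apply Set.ncard_lt_ncard _ (Set.toFinite _)
      refine ⟨?_, ?_⟩
      · rintro _ ⟨u, hu1, rfl⟩
        exact hu1
      · intro hsub
        obtain ⟨u, -, hu2⟩ := hsub (show w ∈ T.neighborSet v from hadj.symm)
        exact u.2 hu2
    simp only
    omega
  let f : V × W ↪ (V × {u : W // u ≠ w}) × Bool :=
    { toFun := fun p => if hp : p.2 = w then ((p.1, v'), true) else ((p.1, ⟨p.2, hp⟩), false)
      inj' := by
        rintro ⟨x, u⟩ ⟨y, t⟩ hxy
        by_cases h1 : u = w
        · by_cases h2 : t = w
          · simp only [h1, h2, dif_pos, Prod.mk.injEq, and_true] at hxy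
            rw [h1, h2, hxy]
          · simp only [h1, h2, dif_pos] at hxy
            exact absurd (Prod.mk.inj hxy).2 (by simp)
        · by_cases h2 : t = w
          · simp only [h1, h2, dif_pos] at hxy
            exact absurd (Prod.mk.inj hxy).2 (by simp)
          · simp only [h1, h2, dif_neg, not_false_eq_true, Prod.mk.injEq, and_true,
              Subtype.mk.injEq] at hxy
            rw [hxy.1, hxy.2] }
  have f1 : ∀ x, f (x, w) = ((x, v'), true) := fun x => dif_pos rfl
  have f2 : ∀ x u (hu : u ≠ w), f (x, u) = ((x, ⟨u, hu⟩), false) := fun x u hu => dif_neg hu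
  apply GG_hom f _ h1
  rintro ⟨x, u⟩ ⟨y, t⟩ hab
  rw [boxProd_adj] at hab
  simp only at hab
  by_cases c1 : u = w
  · subst c1
    by_cases c2 : t = u
    · subst c2
      rcases hab with ⟨h3, -⟩ | ⟨h3, -⟩
      · rw [f1, f1, dblG_adj]
        left
        refine ⟨rfl, ?_⟩
        rw [boxProd_adj]
        exact Or.inl ⟨h3, rfl⟩
      · exact absurd rfl h3.ne
    · rcases hab with ⟨-, h3⟩ | ⟨h3, h4⟩
      · exact absurd h3.symm c2
      · subst h4
        have h5 : (⟨t, c2⟩ : {v : W // v ≠ u}) = v' := Subtype.ext (hu t h3)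
        rw [f1, f2 _ _ c2, dblG_adj]
        right
        exact ⟨by simp, by rw [h5], hu t h3 ▸ h3, rfl⟩
  · by_cases c2 : t = w
    · subst c2
      rcases hab with ⟨-, h3⟩ | ⟨h3, h4⟩
      · exact absurd h3 c1
      · subst h4
        have h5 : (⟨u, c1⟩ : {v : W // v ≠ t}) = v' := Subtype.ext (hu u h3.symm)
        rw [f1, f2 _ _ c1, dblG_adj]
        right
        exact ⟨by simp, by rw [h5], hu u h3.symm ▸ h3.symm, h5⟩
    · rw [f2 _ _ c1, f2 _ _ c2, dblG_adj]
      left
      refine ⟨rfl, ?_⟩
      rw [boxProd_adj]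
      rcases hab with ⟨h3, h4⟩ | ⟨h3, h4⟩
      · left
        subst h4
        exact ⟨h3, rfl⟩
      · right
        exact ⟨h3, h4⟩

theorem GG_box_acyclic_aux (n : ℕ) : ∀ {W : Type} [Fintype W] {G : SimpleGraph V}
    {T : SimpleGraph W}, Fintype.card W = n → T.IsAcyclic → (∀ x w, dg G x + dg T w ≤ D) →
    GG G D → GG (G □ T) D := by
  classical
  induction n with
  | zero =>
    intro W _ G T hc _ _ h
    have : IsEmpty W := Fintype.card_eq_zero_iff.1 hc
    let f : V × W ↪ V := ⟨fun p => p.1, fun p => (this.false p.2).elim⟩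
    exact GG_hom f (fun p => (this.false p.2).elim) h
  | succ n ih =>
    intro W _ G T hc hT hD h
    by_cases hn : Nontrivial W
    · obtain ⟨w, v, hvw, hu⟩ := exists_leaf hT
      apply GG_leaf hvw hu (fun _ x => hD x v)
      apply ih
      · rw [Fintype.card_subtype_compl, hc]
        simp
      · exact hT.of_comap ⟨fun u : {u : W // u ≠ w} => u.1, Subtype.val_injective⟩
      · intro x u
        refine le_trans (Nat.add_le_add_left ?_ _) (hD x u.1)
        exact dg_hom (fun u : {u : W // u ≠ w} => u.1) u Subtype.val_injective (fun a ha => ha)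
      · exact h
    · rw [not_nontrivial_iff_subsingleton] at hn
      let f : V × W ↪ V := ⟨fun p => p.1, fun p q hpq => Prod.ext hpq (Subsingleton.elim _ _)⟩
      refine GG_hom f ?_ h
      rintro ⟨x, u⟩ ⟨y, t⟩ hab
      rw [boxProd_adj] at hab
      rcases hab with ⟨h3, -⟩ | ⟨h3, -⟩
      · exact h3
      · exact absurd (Subsingleton.elim _ _) h3.ne

/-- products with forests -/
theorem GG_box_acyclic {W : Type} [Fintype W] {G : SimpleGraph V} {T : SimpleGraph W}
    (hT : T.IsAcyclic) (hD : ∀ x w, dg G x + dg T w ≤ D) (h : GG G D) : GG (G □ T) D :=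
  GG_box_acyclic_aux _ rfl hT hD h

theorem dg_path_last (n : ℕ) : dg (pathGraph (n + 1)) (Fin.last n) ≤ 1 := by
  unfold dg
  rw [Set.ncard_le_one_iff]
  intro a b ha hb
  rw [mem_neighborSet, pathGraph_adj] at ha hb
  apply Fin.ext
  have h1 := a.2
  have h2 := b.2
  simp only [Fin.val_last] at ha hb
  omega

theorem dg_path_zero (n : ℕ) : dg (pathGraph (n + 1)) 0 ≤ 1 := by
  unfold dg
  rw [Set.ncard_le_one_iff]
  intro a b ha hb
  rw [mem_neighborSet, pathGraph_adj] at ha hb
  apply Fin.ext
  have h1 := a.2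
  have h2 := b.2
  simp only [Fin.val_zero] at ha hb
  omega

/-- products with paths -/
theorem GG_box_path {G : SimpleGraph V} (hD : ∀ x, dg G x + 2 ≤ D) (h : GG G D) (n : ℕ) :
    GG (G □ pathGraph (n + 1)) D := by
  classical
  induction n with
  | zero =>
    have hsub : Subsingleton (Fin (0 + 1)) := inferInstanceAs (Subsingleton (Fin 1))
    let f : V × Fin (0 + 1) ↪ V := ⟨fun p => p.1, fun p q hpq => Prod.ext hpq (Subsingleton.elim _ _)⟩
    refine GG_hom f ?_ h
    rintro ⟨x, u⟩ ⟨y, t⟩ hab
    rw [boxProd_adj] at hab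
    rcases hab with ⟨h3, -⟩ | ⟨h3, -⟩
    · exact h3
    · exact absurd (Subsingleton.elim _ _) h3.ne
  | succ n ih =>
    let S : Set (V × Fin (n + 1)) := {p | p.2 = Fin.last n}
    have h1 : GG (dblG (G □ pathGraph (n + 1)) S) D := by
      apply GG_dblG _ ih
      rintro ⟨x, u⟩ hu
      have hu' : u = Fin.last n := hu
      subst hu'
      rw [dg_box]
      have := dg_path_last n
      have := hD x
      simp only
      omega
    let f : V × Fin (n + 2) ↪ (V × Fin (n + 1)) × Bool :=
      { toFun := fun p => if hp : p.2.val < n + 1 then ((p.1, ⟨p.2.val, hp⟩), false)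
          else ((p.1, Fin.last n), true)
        inj' := by
          rintro ⟨x, u⟩ ⟨y, t⟩ hxy
          have hu := u.2
          have ht := t.2
          by_cases h1 : u.val < n + 1
          · by_cases h2 : t.val < n + 1
            · simp only [h1, h2, dif_pos, Prod.mk.injEq, and_true, Fin.mk.injEq] at hxy
              rw [hxy.1, Fin.ext hxy.2]
            · simp only [h1, h2, dif_pos, dif_neg, not_false_eq_true] at hxy
              exact absurd (Prod.mk.inj hxy).2 (by simp)
          · by_cases h2 : t.val < n + 1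
            · simp only [h1, h2, dif_pos, dif_neg, not_false_eq_true] at hxy
              exact absurd (Prod.mk.inj hxy).2 (by simp)
            · simp only [h1, h2, dif_neg, not_false_eq_true, Prod.mk.injEq, and_true] at hxy
              rw [hxy]
              congr 1
              apply Fin.ext
              omega }
    have f1 : ∀ x (u : Fin (n + 2)) (hu : u.val < n + 1), f (x, u) = ((x, ⟨u.val, hu⟩), false) :=
      fun x u hu => dif_pos hu
    have f2 : ∀ x (u : Fin (n + 2)) (_ : ¬ u.val < n + 1), f (x, u) = ((x, Fin.last n), true) :=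
      fun x u hu => dif_neg hu
    apply GG_hom f _ h1
    rintro ⟨x, u⟩ ⟨y, t⟩ hab
    rw [boxProd_adj] at hab
    simp only at hab
    have hu := u.2
    have ht := t.2
    by_cases h1 : u.val < n + 1
    · by_cases h2 : t.val < n + 1
      · rw [f1 _ _ h1, f1 _ _ h2, dblG_adj]
        left
        refine ⟨rfl, ?_⟩
        rw [boxProd_adj]
        rcases hab with ⟨h3, h4⟩ | ⟨h3, h4⟩
        · left
          subst h4
          exact ⟨h3, rfl⟩
        · right
          rw [pathGraph_adj] at h3 ⊢
          exact ⟨h3, h4⟩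
      · rw [f1 _ _ h1, f2 _ _ h2, dblG_adj]
        right
        rcases hab with ⟨h3, h4⟩ | ⟨h3, h4⟩
        · rw [h4] at h1
          exact absurd h1 h2
        · rw [pathGraph_adj] at h3
          subst h4
          have : (⟨u.val, h1⟩ : Fin (n + 1)) = Fin.last n := by
            apply Fin.ext
            simp only [Fin.val_last]
            omega
          exact ⟨by simp, by simp only [this], this⟩
    · by_cases h2 : t.val < n + 1
      · rw [f2 _ _ h1, f1 _ _ h2, dblG_adj]
        right
        rcases hab with ⟨h3, h4⟩ | ⟨h3, h4⟩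
        · rw [h4] at h1
          exact absurd h2 h1
        · rw [pathGraph_adj] at h3
          subst h4
          have : (⟨t.val, h2⟩ : Fin (n + 1)) = Fin.last n := by
            apply Fin.ext
            simp only [Fin.val_last]
            omega
          exact ⟨by simp, by simp only [this], rfl⟩
      · rw [f2 _ _ h1, f2 _ _ h2, dblG_adj]
        left
        refine ⟨rfl, ?_⟩
        rw [boxProd_adj]
        rcases hab with ⟨h3, h4⟩ | ⟨h3, h4⟩
        · left
          exact ⟨h3, rfl⟩
        · rw [pathGraph_adj] at h3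
          omega

/-- products with even cycles -/
theorem GG_box_cycle {G : SimpleGraph V} (hD : ∀ x, dg G x + 2 ≤ D) (h : GG G D) (n : ℕ) :
    GG (G □ cycleGraph (2 * (n + 1))) D := by
  classical
  let S : Set (V × Fin (n + 1)) := {p | p.2 = 0 ∨ p.2 = Fin.last n}
  have h1 : GG (dblG (G □ pathGraph (n + 1)) S) D := by
    apply GG_dblG _ (GG_box_path hD h n)
    rintro ⟨x, u⟩ hu
    rw [dg_box]
    have h3 := hD x
    have h4 := dg_path_last n
    have h5 := dg_path_zero n
    simp only
    rcases hu with hu | hu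
    · simp only at hu
      rw [hu]
      omega
    · simp only at hu
      rw [hu]
      omega
  let f : V × Fin (2 * (n + 1)) ↪ (V × Fin (n + 1)) × Bool :=
    { toFun := fun p => if hp : p.2.val < n + 1 then ((p.1, ⟨p.2.val, hp⟩), false)
        else ((p.1, ⟨2 * n + 1 - p.2.val, by have := p.2.2; omega⟩), true)
      inj' := by
        rintro ⟨x, u⟩ ⟨y, t⟩ hxy
        have hu := u.2
        have ht := t.2
        by_cases h1 : u.val < n + 1
        · by_cases h2 : t.val < n + 1
          · simp only [h1, h2, dif_pos, Prod.mk.injEq, and_true, Fin.mk.injEq] at hxy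
            rw [hxy.1, Fin.ext hxy.2]
          · simp only [h1, h2, dif_pos, dif_neg, not_false_eq_true] at hxy
            exact absurd (Prod.mk.inj hxy).2 (by simp)
        · by_cases h2 : t.val < n + 1
          · simp only [h1, h2, dif_pos, dif_neg, not_false_eq_true] at hxy
            exact absurd (Prod.mk.inj hxy).2 (by simp)
          · simp only [h1, h2, dif_neg, not_false_eq_true, Prod.mk.injEq, and_true,
              Fin.mk.injEq] at hxy
            rw [hxy.1]
            congr 1
            apply Fin.ext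
            omega }
  have f1 : ∀ x (u : Fin (2 * (n + 1))) (hu : u.val < n + 1),
      f (x, u) = ((x, ⟨u.val, hu⟩), false) := fun x u hu => dif_pos hu
  have f2 : ∀ x (u : Fin (2 * (n + 1))) (_ : ¬ u.val < n + 1),
      f (x, u) = ((x, ⟨2 * n + 1 - u.val, by have := u.2; omega⟩), true) :=
    fun x u hu => dif_neg hu
  -- adjacency in the cycle
  have hcyc : ∀ u t : Fin (2 * (n + 1)), (cycleGraph (2 * (n + 1))).Adj u t →
      (u.val + 1 = t.val ∨ t.val + 1 = u.val ∨ (u.val = 0 ∧ t.val = 2 * n + 1) ∨
        (t.val = 0 ∧ u.val = 2 * n + 1)) := by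
    intro u t hut
    rw [cycleGraph_adj'] at hut
    have hu := u.2
    have ht := t.2
    rcases hut with h | h
    · rw [Fin.val_sub] at h
      by_cases hle : t.val ≤ u.val
      · have : (2 * (n + 1) - t.val + u.val) % (2 * (n + 1)) = u.val - t.val := by
          rw [show 2 * (n + 1) - t.val + u.val = (u.val - t.val) + 2 * (n + 1) by omega,
            Nat.add_mod_right, Nat.mod_eq_of_lt (by omega)]
        omega
      · have : (2 * (n + 1) - t.val + u.val) % (2 * (n + 1)) = 2 * (n + 1) - t.val + u.val :=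
          Nat.mod_eq_of_lt (by omega)
        omega
    · rw [Fin.val_sub] at h
      by_cases hle : u.val ≤ t.val
      · have : (2 * (n + 1) - u.val + t.val) % (2 * (n + 1)) = t.val - u.val := by
          rw [show 2 * (n + 1) - u.val + t.val = (t.val - u.val) + 2 * (n + 1) by omega,
            Nat.add_mod_right, Nat.mod_eq_of_lt (by omega)]
        omega
      · have : (2 * (n + 1) - u.val + t.val) % (2 * (n + 1)) = 2 * (n + 1) - u.val + t.val :=
          Nat.mod_eq_of_lt (by omega)
        omega
  apply GG_hom f _ h1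
  rintro ⟨x, u⟩ ⟨y, t⟩ hab
  rw [boxProd_adj] at hab
  simp only at hab
  have hu := u.2
  have ht := t.2
  by_cases h1 : u.val < n + 1
  · by_cases h2 : t.val < n + 1
    · rw [f1 _ _ h1, f1 _ _ h2, dblG_adj]
      left
      refine ⟨rfl, ?_⟩
      rw [boxProd_adj]
      rcases hab with ⟨h3, h4⟩ | ⟨h3, h4⟩
      · left
        subst h4
        exact ⟨h3, rfl⟩
      · right
        have h5 := hcyc _ _ h3
        rw [pathGraph_adj]
        refine ⟨?_, h4⟩
        simp only
        omega
    · rw [f1 _ _ h1, f2 _ _ h2, dblG_adj]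
      right
      rcases hab with ⟨h3, h4⟩ | ⟨h3, h4⟩
      · rw [h4] at h1
        exact absurd h1 h2
      · have h5 := hcyc _ _ h3
        subst h4
        have h6 : (⟨u.val, h1⟩ : Fin (n + 1)) = ⟨2 * n + 1 - t.val, by omega⟩ := by
          apply Fin.ext
          simp only
          omega
        refine ⟨by simp, by simp only [h6], ?_⟩
        show (⟨u.val, h1⟩ : Fin (n + 1)) = 0 ∨ (⟨u.val, h1⟩ : Fin (n + 1)) = Fin.last n
        rw [Fin.ext_iff, Fin.ext_iff]
        simp only [Fin.val_last, Fin.val_zero]
        omega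
  · by_cases h2 : t.val < n + 1
    · rw [f2 _ _ h1, f1 _ _ h2, dblG_adj]
      right
      rcases hab with ⟨h3, h4⟩ | ⟨h3, h4⟩
      · rw [h4] at h1
        exact absurd h2 h1
      · have h5 := hcyc _ _ h3
        subst h4
        have h6 : (⟨t.val, h2⟩ : Fin (n + 1)) = ⟨2 * n + 1 - u.val, by omega⟩ := by
          apply Fin.ext
          simp only
          omega
        refine ⟨by simp, by simp only [h6], ?_⟩
        rw [← h6]
        show (⟨t.val, h2⟩ : Fin (n + 1)) = 0 ∨ (⟨t.val, h2⟩ : Fin (n + 1)) = Fin.last n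
        rw [Fin.ext_iff, Fin.ext_iff]
        simp only [Fin.val_last, Fin.val_zero]
        omega
    · rw [f2 _ _ h1, f2 _ _ h2, dblG_adj]
      left
      refine ⟨rfl, ?_⟩
      rw [boxProd_adj]
      rcases hab with ⟨h3, h4⟩ | ⟨h3, h4⟩
      · left
        subst h4
        exact ⟨h3, rfl⟩
      · right
        have h5 := hcyc _ _ h3
        rw [pathGraph_adj]
        refine ⟨?_, h4⟩
        simp only
        omega

end Pool.Agent.Helper81.Box
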