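import Mathlib

set_option autoImplicit false

namespace Pool.Agent.Helper81

/-- The Cartesian product of a finite family of graphs: two vertices are adjacent iff they differ in
exactly one coordinate and are adjacent there. -/
def piBox {s : ℕ} {W : Fin s → Type} (H : ∀ i, SimpleGraph (W i)) : SimpleGraph (∀ i, W i) where
  Adj x y := ∃ i, (H i).Adj (x i) (y i) ∧ ∀ j, j ≠ i → x j = y j
  symm := ⟨by
    rintro x y ⟨i, h1, h2⟩
    exact ⟨i, h1.symm, fun j hj => (h2 j hj).symm⟩⟩
  loopless := ⟨by
    rintro x ⟨i, h1, -⟩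
    exact h1.ne rfl⟩

end Pool.Agent.Helper81
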