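import Mathlib
import Pool.Agent.Helper81.Box2
import Pool.Agent.Helper81.PiBox

set_option autoImplicit false

namespace Pool.Agent.Helper81.Box

open SimpleGraph Pool.Agent.Helper15.LEC Pool.Agent.Helper15.Slots

theorem piBox_adj {s : ℕ} {W : Fin s → Type} (H : ∀ i, SimpleGraph (W i)) (x y : ∀ i, W i) :
    (piBox H).Adj x y ↔ ∃ i, (H i).Adj (x i) (y i) ∧ ∀ j, j ≠ i → x j = y j := Iff.rfl

theorem GG_box_iso {V : Type} [Fintype V] {D : ℕ} {W : Type} [Fintype W] {G : SimpleGraph V}
    {H : SimpleGraph W} (hH : H.IsAcyclic ∨ ∃ n, 2 ≤ n ∧ Nonempty (H ≃g cycleGraph (2 * n)))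
    (m : ℕ) (hm : ∀ w, dg H w ≤ m) (hD : ∀ x, dg G x + m ≤ D) (hW : Nonempty W)
    (h : GG G D) : GG (G □ H) D := by
  classical
  rcases hH with hH | ⟨n, hn, ⟨e⟩⟩
  · exact GG_box_acyclic hH (fun x w => (Nat.add_le_add_left (hm w) _).trans (hD x)) h
  · obtain ⟨k, rfl⟩ : ∃ k, n = k + 2 := ⟨n - 2, by omega⟩
    have h2 : 2 ≤ m := by
      obtain ⟨w⟩ := hW
      refine le_trans ?_ (hm w)
      have h3 : dg (cycleGraph (2 * (k + 2))) (e w) = 2 := by
        rw [← dg_eq]
        have h4 : 2 * (k + 2) = (2 * k + 1) + 3 := by ring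
        have h5 : ∀ (N : ℕ) (_ : N = (2 * k + 1) + 3) (v : Fin N), (cycleGraph N).degree v = 2 := by
          intro N hN v
          subst hN
          exact cycleGraph_degree_three_le
        exact h5 _ h4 _
      rw [← h3]
      have := dg_hom (G := H) (G' := cycleGraph (2 * (k + 2))) e.symm (e w) e.symm.injective
        (fun a ha => e.symm.map_adj_iff.2 ha)
      rw [e.symm_apply_apply] at this
      exact this
    have h1 := GG_box_cycle (fun x => (Nat.add_le_add_left h2 _).trans (hD x)) h (k + 1)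
    let f : V × W ↪ V × Fin (2 * (k + 1 + 1)) :=
      ⟨fun p => (p.1, e p.2), fun p q hpq => by
        obtain ⟨a, b⟩ := Prod.mk.inj hpq
        exact Prod.ext a (e.injective b)⟩
    apply GG_hom f _ h1
    rintro ⟨x, u⟩ ⟨y, t⟩ hab
    rw [boxProd_adj] at hab ⊢
    rcases hab with ⟨h3, h4⟩ | ⟨h3, h4⟩
    · left
      simp only at h4
      subst h4
      exact ⟨h3, rfl⟩
    · right
      exact ⟨e.map_adj_iff.2 h3, h4⟩

theorem GG_piBox (s : ℕ) : ∀ {V : Type} [Fintype V] {D : ℕ} {G : SimpleGraph V}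
    (W : Fin s → Type) [∀ i, Fintype (W i)] (H : ∀ i, SimpleGraph (W i))
    (_ : ∀ i, Nonempty (W i))
    (_ : ∀ i, (H i).IsAcyclic ∨ ∃ n, 2 ≤ n ∧ Nonempty (H i ≃g cycleGraph (2 * n)))
    (m : Fin s → ℕ) (_ : ∀ i w, dg (H i) w ≤ m i) (_ : ∀ x, dg G x + ∑ i, m i ≤ D)
    (_ : GG G D), GG (G □ piBox H) D := by
  classical
  induction s with
  | zero =>
    intro V _ D G W _ H _ _ m _ _ h
    let f : V × (∀ i, W i) ↪ V := ⟨fun p => p.1, fun p q hpq => Prod.ext hpq (funext fun i => i.elim0)⟩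
    refine GG_hom f ?_ h
    rintro ⟨x, u⟩ ⟨y, t⟩ hab
    rw [boxProd_adj] at hab
    rcases hab with ⟨h3, -⟩ | ⟨h3, -⟩
    · exact h3
    · exact absurd (funext fun i => i.elim0) h3.ne
  | succ s ih =>
    intro V _ D G W _ H hW hH m hm hD h
    have h1 : GG (G □ H 0) D := by
      apply GG_box_iso (hH 0) (m 0) (hm 0) _ (hW 0) h
      intro x
      have := hD x
      rw [Fin.sum_univ_succ] at this
      omega
    have h2 : GG ((G □ H 0) □ piBox (fun i : Fin s => H i.succ)) D := by
      apply ih (fun i : Fin s => W i.succ) (fun i : Fin s => H i.succ) (fun i => hW i.succ)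
        (fun i => hH i.succ) (fun i => m i.succ) (fun i => hm i.succ) _ h1
      rintro ⟨x, w⟩
      have := hD x
      rw [Fin.sum_univ_succ] at this
      rw [dg_box]
      have h3 := hm 0 w
      simp only
      omega
    let f : V × (∀ i, W i) ↪ (V × W 0) × (∀ i : Fin s, W i.succ) :=
      ⟨fun p => ((p.1, p.2 0), fun i => p.2 i.succ), fun p q hpq => by
        obtain ⟨a, b⟩ := Prod.mk.inj hpq
        obtain ⟨a1, a2⟩ := Prod.mk.inj a
        refine Prod.ext a1 (funext fun i => ?_)
        induction i using Fin.cases with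
        | zero => exact a2
        | succ i => exact congrFun b i⟩
    have hf : ∀ (x : V) (u : ∀ i, W i), f (x, u) = ((x, u 0), fun i : Fin s => u i.succ) :=
      fun _ _ => rfl
    apply GG_hom f _ h2
    rintro ⟨x, u⟩ ⟨y, t⟩ hab
    rw [boxProd_adj] at hab
    rw [hf, hf, boxProd_adj, boxProd_adj]
    simp only at hab ⊢
    rcases hab with ⟨h3, h4⟩ | ⟨⟨i, h3, h5⟩, h4⟩
    · left
      subst h4
      exact ⟨Or.inl ⟨h3, rfl⟩, rfl⟩
    · subst h4
      induction i using Fin.cases with
      | zero =>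
        left
        refine ⟨Or.inr ⟨h3, rfl⟩, ?_⟩
        funext i
        exact h5 i.succ (Fin.succ_ne_zero i)
      | succ i =>
        right
        refine ⟨⟨i, h3, fun j hj => h5 j.succ (fun hh => hj (Fin.succ_injective _ hh))⟩, ?_⟩
        rw [h5 0 (Fin.succ_ne_zero i).symm]

theorem dg_piBox {s : ℕ} {W : Fin s → Type} [∀ i, Fintype (W i)] (H : ∀ i, SimpleGraph (W i))
    (x : ∀ i, W i) : ∑ i, dg (H i) (x i) ≤ dg (piBox H) x := by
  classical
  have h1 : ∑ i, dg (H i) (x i) = Nat.card (Σ i, (H i).neighborSet (x i)) := by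
    rw [Nat.card_sigma]
    rfl
  have h2 : dg (piBox H) x = Nat.card ((piBox H).neighborSet x) := rfl
  rw [h1, h2]
  apply Nat.card_le_card_of_injective
    (fun p : (Σ i, (H i).neighborSet (x i)) => (⟨Function.update x p.1 p.2.1, by
      rw [mem_neighborSet, piBox_adj]
      refine ⟨p.1, ?_, ?_⟩
      · rw [Function.update_self]
        exact p.2.2
      · intro j hj
        rw [Function.update_of_ne hj]⟩ : (piBox H).neighborSet x))
  rintro ⟨i, y, hy⟩ ⟨j, z, hz⟩ hh
  have h3 := congrArg Subtype.val hh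
  simp only at h3
  have hyx : y ≠ x i := fun h => by
    rw [h] at hy
    exact (mem_neighborSet _ _ _ |>.1 hy).ne rfl
  by_cases hij : i = j
  · subst hij
    have h4 := congrFun h3 i
    rw [Function.update_self, Function.update_self] at h4
    subst h4
    rfl
  · exfalso
    have h4 := congrFun h3 i
    rw [Function.update_self, Function.update_of_ne hij] at h4
    exact hyx h4

/-- the list edge-colouring property for products with forests and even cycles -/
theorem final_box {V : Type} [Fintype V] [Nonempty V] (G : SimpleGraph V)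
    [DecidableRel G.Adj] {s : ℕ} (W : Fin s → Type) [∀ i, Fintype (W i)] [∀ i, Nonempty (W i)]
    (H : ∀ i, SimpleGraph (W i)) [∀ i, DecidableRel (H i).Adj]
    (hH : ∀ i, (H i).IsAcyclic ∨ ∃ n, 2 ≤ n ∧ Nonempty (H i ≃g cycleGraph (2 * n)))
    (hG : GG G (G.maxDegree + ∑ i, (H i).maxDegree)) (P : SimpleGraph (V × (∀ i, W i)))
    (hP : P = G □ piBox H) (k : ℕ) :
    (P.lineGraph.Colorable k ↔
      ∀ L : P.edgeSet → Finset ℕ, (∀ e, k ≤ (L e).card) →
        ∃ f : P.edgeSet → ℕ, (∀ e, f e ∈ L e) ∧ ∀ e e', P.lineGraph.Adj e e' → f e ≠ f e') ∧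
    (P.lineGraph.Colorable k ↔ G.maxDegree + ∑ i, (H i).maxDegree ≤ k) := by
  classical
  subst hP
  have hGG : GG (G □ piBox H) (G.maxDegree + ∑ i, (H i).maxDegree) := by
    apply GG_piBox s W H (fun i => inferInstance) hH (fun i => (H i).maxDegree)
    · intro i w
      rw [← dg_eq]
      exact (H i).degree_le_maxDegree w
    · intro x
      rw [← dg_eq]
      exact Nat.add_le_add_right (G.degree_le_maxDegree x) _
    · exact hG
  have hLC : LC (G □ piBox H) (G.maxDegree + ∑ i, (H i).maxDegree) := GG_LC _ hGG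
  have hle : ∀ k, (G □ piBox H).lineGraph.Colorable k → G.maxDegree + ∑ i, (H i).maxDegree ≤ k := by
    intro k hk
    obtain ⟨v, hv⟩ := G.exists_maximal_degree_vertex
    choose x hx using fun i => (H i).exists_maximal_degree_vertex
    have h1 := degree_le_of_colorable (G □ piBox H) (v, x) hk
    rw [dg_eq, dg_box] at h1
    simp only at h1
    refine le_trans ?_ h1
    rw [hv, dg_eq]
    apply Nat.add_le_add_left
    refine le_trans ?_ (dg_piBox H x)
    apply Finset.sum_le_sum
    intro i _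
    rw [hx, dg_eq]
  refine ⟨⟨?_, ?_⟩, hle k, ?_⟩
  · intro hk L hL
    exact hLC L (fun e => (hle k hk).trans (hL e))
  · exact LC_colorable
  · intro hk
    exact (LC_colorable hLC).mono hk

end Pool.Agent.Helper81.Box
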