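import Mathlib
import Pool.Agent.Helper81.Box3
import Pool.Agent.Helper15.K2p

set_option autoImplicit false

namespace Pool.Agent.Helper81.Box

open SimpleGraph Pool.Agent.Helper15.LEC Pool.Agent.Helper15.Slots

variable {V : Type} [Fintype V] {D : ℕ}

/-- a graph with at most as many vertices as `W` is as good as the complete graph on `W` -/
theorem GG_of_top {W : Type} [Fintype W] {G : SimpleGraph V} {d : ℕ}
    (h : GG (⊤ : SimpleGraph W) d) (hc : Fintype.card V ≤ Fintype.card W) (hd : d ≤ D) :
    GG G D := by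
  classical
  obtain ⟨φ⟩ := Function.Embedding.nonempty_of_card_le hc
  exact GG_le (GG_hom φ (fun a b hab => by
    rw [top_adj]
    exact fun hh => hab.ne (φ.injective hh)) h) hd

theorem GG_subsing {G : SimpleGraph V} (h : Fintype.card V ≤ 1) : GG G D := by
  classical
  have hsub : Subsingleton V := Fintype.card_le_one_iff_subsingleton.1 h
  have hG : G = ⊥ := by
    ext a b
    constructor
    · intro h
      exact (h.ne (Subsingleton.elim a b)).elim
    · intro h
      exact h.elim
  rw [hG]
  exact GG_bot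

/-- graphs on at most `p - 1` vertices, `p` prime -/
theorem GG_prime {G : SimpleGraph V} {p : ℕ} (hp : p.Prime) (h1 : Fintype.card V + 1 ≤ p)
    (h2 : p ≤ D + 2) : GG G D := by
  classical
  rcases hp.eq_two_or_odd' with rfl | hodd
  · exact GG_subsing (by omega)
  · obtain ⟨m, hm⟩ := hodd
    obtain ⟨d, hd⟩ : ∃ d, p = d + 2 := ⟨p - 2, by have := hp.two_le; omega⟩
    have hmd : 2 * m = d + 1 := by omega
    have hp' : (d + 2).Prime := hd ▸ hp
    exact GG_of_top (GG_top hmd hp') (by rw [Fintype.card_fin]; omega) (by omega)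

/-- graphs on at most `2p` vertices, `p` prime -/
theorem GG_twoPrime {G : SimpleGraph V} {p : ℕ} (hp : p.Prime) (h1 : Fintype.card V ≤ 2 * p)
    (h2 : 2 * p ≤ D + 1) : GG G D := by
  obtain ⟨W, hW, hcard, hGG⟩ := Pool.Agent.Helper15.K2p.GG_twice hp
  exact GG_of_top hGG (by rw [hcard]; exact h1) (by omega)

/-- subgraphs of `K_{p-1}` minus a perfect matching -/
theorem GG_cocktailBox [DecidableEq V] {G : SimpleGraph V} {p : ℕ} (hp : p.Prime)
    (m : V → V) (hm1 : ∀ v, m (m v) = v) (hm2 : ∀ v, ¬ G.Adj v (m v))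
    (h1 : Fintype.card V + Fintype.card {v // m v = v} + 1 ≤ p)
    (h2 : p ≤ D + 3) : GG G D := by
  classical
  by_cases hV : Fintype.card V ≤ 1
  · exact GG_subsing hV
  · have hp2 : p ≠ 2 := by omega
    have hodd := hp.odd_of_ne_two hp2
    let F := {v // m v = v}
    -- parity
    let ν0 : V ⊕ F → V ⊕ F := fun x => match x with
      | Sum.inl v => if h : m v = v then Sum.inr ⟨v, h⟩ else Sum.inl (m v)
      | Sum.inr v => Sum.inl v.1
    have ν0a : ∀ v (h : m v = v), ν0 (Sum.inl v) = Sum.inr ⟨v, h⟩ := fun v h => dif_pos h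
    have ν0b : ∀ v (_ : m v ≠ v), ν0 (Sum.inl v) = Sum.inl (m v) := fun v h => dif_neg h
    have ν0c : ∀ v : F, ν0 (Sum.inr v) = Sum.inl v.1 := fun v => rfl
    have hν0 : ∀ x, ν0 (ν0 x) = x := by
      rintro (v | v)
      · by_cases h : m v = v
        · rw [ν0a v h, ν0c]
        · rw [ν0b v h, ν0b _ (fun h' => h (by rw [hm1] at h'; exact h'.symm)), hm1]
      · rw [ν0c, ν0a v.1 v.2]
    have hν0f : ∀ x, ν0 x ≠ x := by
      rintro (v | v)
      · by_cases h : m v = v
        · rw [ν0a v h]; simp
        · rw [ν0b v h]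
          intro h'
          exact h (Sum.inl.inj h')
      · rw [ν0c]; simp
    have heven := card_even_of_invol ν0 hν0 hν0f
    rw [Fintype.card_sum] at heven
    obtain ⟨a, ha⟩ := heven
    obtain ⟨b, hb⟩ := hodd
    obtain ⟨t, ht⟩ : ∃ t, Fintype.card V + Fintype.card F + t * 2 + 1 = p :=
      ⟨b - a, by
        have h3 : Fintype.card F = Fintype.card {v // m v = v} := rfl
        omega⟩
    let W := (V ⊕ F) ⊕ (Fin t × Bool)
    let mW : W → W := fun x => match x with
      | Sum.inl y => Sum.inl (ν0 y)
      | Sum.inr (i, b) => Sum.inr (i, !b)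
    have hW : Fintype.card W + 1 = p := by
      simp only [W, Fintype.card_sum, Fintype.card_prod, Fintype.card_fin, Fintype.card_bool]
      exact ht
    let φ : V ↪ W := ⟨fun v => Sum.inl (Sum.inl v), fun x y h => Sum.inl.inj (Sum.inl.inj h)⟩
    have hG' : GG (G.map φ) (p - 3) := by
      apply GG_cocktail hp hp2 hW _ mW
      · rintro (y | ⟨i, b⟩)
        · show Sum.inl (ν0 (ν0 y)) = _
          rw [hν0]
        · show Sum.inr (i, !!b) = _
          rw [Bool.not_not]
      · rintro (y | ⟨i, b⟩)
        · intro h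
          exact hν0f y (Sum.inl.inj h)
        · intro h
          have := (Prod.mk.inj (Sum.inr.inj h)).2
          simp at this
      · intro w hw
        rw [SimpleGraph.map_adj] at hw
        obtain ⟨u, v, huv, rfl, h4⟩ := hw
        have h5 : mW (φ u) = Sum.inl (ν0 (Sum.inl u)) := rfl
        have h6 : φ v = Sum.inl (Sum.inl v) := rfl
        rw [h5, h6] at h4
        have h7 := Sum.inl.inj h4
        by_cases h : m u = u
        · rw [ν0a u h] at h7
          exact absurd h7 (by simp)
        · rw [ν0b u h] at h7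
          have h8 := Sum.inl.inj h7
          rw [h8] at huv
          exact hm2 u huv
    exact GG_le (GG_hom φ (fun a b hab => SimpleGraph.map_adj_apply.2 hab) hG') (by omega)

end Pool.Agent.Helper81.Box
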