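import Mathlib
import Pool.Agent.Helper81.Box4

set_option autoImplicit false

namespace Pool.Agent.Helper81.Box

open SimpleGraph Pool.Agent.Helper15.LEC Pool.Agent.Helper15.Slots

/-- `final_box` with the product given by its adjacency relation -/
theorem final_box' {V : Type} [Fintype V] [Nonempty V] (G : SimpleGraph V)
    [DecidableRel G.Adj] {s : ℕ} (W : Fin s → Type) [∀ i, Fintype (W i)] [∀ i, Nonempty (W i)]
    (H : ∀ i, SimpleGraph (W i)) [∀ i, DecidableRel (H i).Adj]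
    (hH : ∀ i, (H i).IsAcyclic ∨ ∃ n, 2 ≤ n ∧ Nonempty (H i ≃g cycleGraph (2 * n)))
    (hG : GG G (G.maxDegree + ∑ i, (H i).maxDegree)) (P : SimpleGraph (V × (∀ i, W i)))
    (hP : ∀ x y, P.Adj x y ↔ (G.Adj x.1 y.1 ∧ x.2 = y.2) ∨
      (x.1 = y.1 ∧ ∃ i, (H i).Adj (x.2 i) (y.2 i) ∧ ∀ j, j ≠ i → x.2 j = y.2 j)) (k : ℕ) :
    (P.lineGraph.Colorable k ↔
      ∀ L : P.edgeSet → Finset ℕ, (∀ e, k ≤ (L e).card) →
        ∃ f : P.edgeSet → ℕ, (∀ e, f e ∈ L e) ∧ ∀ e e', P.lineGraph.Adj e e' → f e ≠ f e') ∧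
    (P.lineGraph.Colorable k ↔ G.maxDegree + ∑ i, (H i).maxDegree ≤ k) := by
  refine final_box G W H hH hG P ?_ k
  ext x y
  rw [hP, boxProd_adj, piBox_adj]
  constructor
  · rintro (⟨h1, h2⟩ | ⟨h1, h2⟩)
    · exact Or.inl ⟨h1, h2⟩
    · exact Or.inr ⟨h2, h1⟩
  · rintro (⟨h1, h2⟩ | ⟨h1, h2⟩)
    · exact Or.inl ⟨h1, h2⟩
    · exact Or.inr ⟨h2, h1⟩

end Pool.Agent.Helper81.Box
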