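import Mathlib

/-!
# A finite binary-Lie ring of order `3^9` with no finite basis of identities

Overview of the proof (files `BL`, `BL2`, `BL3`, `BL4`, and `Pool/Agent/S01836.lean`).

* `K = F_3`. The finite ring is `Q 0`: basis `t, x1, x2, x3, e1, e2, o1, o2, w` over `K`,
  anticommutative, nonzero products `x1 x2 = e1`, `o1 t = e1`, `o2 t = e2`, `e1 t = o1`, `e2 t = o2`,
  `e1 e2 = w`. Every 2-generated subring of it is Lie (`closure_le`, `jacobi_C`, `sq_zero`).
* For every `n` there is a ring `A n` (coordinates `τ ∈ K^n`, `x ∈ K^3`, `y : K^n → K^4`, `w ∈ K`) with: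
  (a) every identity of `Q 0` in the variables `x_i`, `i < N < n`, holds in `A n` (`idn_A`);
  (b) `Q 0` satisfies the identity `p_m` (`idn_pm`) which fails in `A (m+1)` for odd `m` (`not_pm`).
* (a) is proved by comparing `A n` with a power of `Q 1` (`RelA`), and `Q 1` with `Q 0` (`Rel`, this is
  where characteristic 3 is used): the value of an identity of `Q 0` in `A n` is a sum over `K^n` of a
  function which depends only on the pairings with fewer than `n` vectors; such a sum vanishes.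
-/

set_option autoImplicit false

namespace Pool.Agent.Helper81.BL

/-- evaluation of an integer nonassociative polynomial -/
noncomputable def ev {A : Type*} [NonUnitalNonAssocRing A] (g : ℕ → A) (p : FreeMagma ℕ →₀ ℤ) : A :=
  Finsupp.sum p (fun m c => c • FreeMagma.lift g m)

theorem hom_lift {A B : Type*} [NonUnitalNonAssocRing A] [NonUnitalNonAssocRing B]
    (φ : A →ₙ+* B) (g : ℕ → A) (m : FreeMagma ℕ) :
    φ (FreeMagma.lift g m) = FreeMagma.lift (fun i => φ (g i)) m := by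
  induction m using FreeMagma.recOnMul with
  | ih1 x => rfl
  | ih2 x y hx hy => rw [map_mul, map_mul, map_mul, hx, hy]

theorem hom_ev {A B : Type*} [NonUnitalNonAssocRing A] [NonUnitalNonAssocRing B]
    (φ : A →ₙ+* B) (g : ℕ → A) (p : FreeMagma ℕ →₀ ℤ) : φ (ev g p) = ev (fun i => φ (g i)) p := by
  unfold ev
  rw [map_finsuppSum]
  apply Finsupp.sum_congr
  intro m _
  rw [map_zsmul, hom_lift]

theorem lift_mem {A : Type*} [NonUnitalNonAssocRing A] (P : NonUnitalSubring A) (g : ℕ → A)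
    (hg : ∀ i, g i ∈ P) (m : FreeMagma ℕ) : FreeMagma.lift g m ∈ P := by
  induction m using FreeMagma.recOnMul with
  | ih1 x => exact hg x
  | ih2 x y hx hy => rw [map_mul]; exact mul_mem hx hy

theorem ev_mem {A : Type*} [NonUnitalNonAssocRing A] (P : NonUnitalSubring A) (g : ℕ → A)
    (hg : ∀ i, g i ∈ P) (p : FreeMagma ℕ →₀ ℤ) : ev g p ∈ P := by
  unfold ev Finsupp.sum
  apply sum_mem
  intro m _
  exact zsmul_mem (lift_mem P g hg m) _

/-- bound on the variables of a monomial -/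
def bnd : FreeMagma ℕ → ℕ
  | .of i => i + 1
  | .mul x y => max (bnd x) (bnd y)

theorem lift_congr {A : Type*} [NonUnitalNonAssocRing A] (g g' : ℕ → A) (N : ℕ)
    (h : ∀ i, i < N → g i = g' i) (m : FreeMagma ℕ) (hm : bnd m ≤ N) :
    FreeMagma.lift g m = FreeMagma.lift g' m := by
  induction m using FreeMagma.recOnMul with
  | ih1 x => exact h x hm
  | ih2 x y hx hy =>
    have h1 : max (bnd x) (bnd y) ≤ N := hm
    rw [map_mul, map_mul, hx (le_trans (le_max_left _ _) h1), hy (le_trans (le_max_right _ _) h1)]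

theorem ev_congr {A : Type*} [NonUnitalNonAssocRing A] (g g' : ℕ → A) (N : ℕ)
    (h : ∀ i, i < N → g i = g' i) (p : FreeMagma ℕ →₀ ℤ) (hp : ∀ m ∈ p.support, bnd m ≤ N) :
    ev g p = ev g' p := by
  unfold ev
  apply Finsupp.sum_congr
  intro m hm
  rw [lift_congr g g' N h m (hp m hm)]

abbrev K := ZMod 3

/-- The rings `Q κ`: coordinates `0: t`, `1,2,3: x`, `4,5: e`, `6,7: o`, `8: w`. -/
def Q (_ : K) : Type := Fin 9 → K

instance (κ : K) : AddCommGroup (Q κ) := inferInstanceAs (AddCommGroup (Fin 9 → K))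

instance (κ : K) : Finite (Q κ) := inferInstanceAs (Finite (Fin 9 → K))

def qmul (κ : K) (a b : Fin 9 → K) : Fin 9 → K :=
  ![0, 0, 0, 0,
    (a 1 * b 2 - a 2 * b 1) + (a 6 * b 0 - b 6 * a 0),
    κ * (a 1 * b 3 - a 3 * b 1) + (a 7 * b 0 - b 7 * a 0),
    a 4 * b 0 - b 4 * a 0,
    a 5 * b 0 - b 5 * a 0,
    a 4 * b 5 - a 5 * b 4]

instance (κ : K) : Mul (Q κ) := ⟨qmul κ⟩

theorem mul_def (κ : K) (a b : Q κ) : a * b = qmul κ a b := rfl
theorem add_ap (κ : K) (a b : Q κ) (i : Fin 9) : (a + b) i = a i + b i := rfl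
theorem zero_ap (κ : K) (i : Fin 9) : (0 : Q κ) i = 0 := rfl
theorem neg_ap (κ : K) (a : Q κ) (i : Fin 9) : (-a) i = - a i := rfl
theorem sub_ap (κ : K) (a b : Q κ) (i : Fin 9) : (a - b) i = a i - b i := rfl

theorem m0 (κ : K) (a b : Q κ) : (a * b) 0 = 0 := rfl
theorem m1 (κ : K) (a b : Q κ) : (a * b) 1 = 0 := rfl
theorem m2 (κ : K) (a b : Q κ) : (a * b) 2 = 0 := rfl
theorem m3 (κ : K) (a b : Q κ) : (a * b) 3 = 0 := rfl
theorem m4 (κ : K) (a b : Q κ) : (a * b) 4 = (a 1 * b 2 - a 2 * b 1) + (a 6 * b 0 - b 6 * a 0) := rfl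
theorem m5 (κ : K) (a b : Q κ) : (a * b) 5 = κ * (a 1 * b 3 - a 3 * b 1) + (a 7 * b 0 - b 7 * a 0) := rfl
theorem m6 (κ : K) (a b : Q κ) : (a * b) 6 = a 4 * b 0 - b 4 * a 0 := rfl
theorem m7 (κ : K) (a b : Q κ) : (a * b) 7 = a 5 * b 0 - b 5 * a 0 := rfl
theorem m8 (κ : K) (a b : Q κ) : (a * b) 8 = a 4 * b 5 - a 5 * b 4 := rfl

theorem qext {κ : K} {a b : Q κ} (h0 : a 0 = b 0) (h1 : a 1 = b 1) (h2 : a 2 = b 2)
    (h3 : a 3 = b 3) (h4 : a 4 = b 4) (h5 : a 5 = b 5) (h6 : a 6 = b 6) (h7 : a 7 = b 7)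
    (h8 : a 8 = b 8) : a = b := by
  funext i
  fin_cases i <;> assumption

instance (κ : K) : NonUnitalNonAssocRing (Q κ) where
  left_distrib a b c := by
    apply qext <;> simp only [m0, m1, m2, m3, m4, m5, m6, m7, m8, add_ap] <;> ring
  right_distrib a b c := by
    apply qext <;> simp only [m0, m1, m2, m3, m4, m5, m6, m7, m8, add_ap] <;> ring
  zero_mul a := by
    apply qext <;> simp only [m0, m1, m2, m3, m4, m5, m6, m7, m8, zero_ap] <;> ring
  mul_zero a := by
    apply qext <;> simp only [m0, m1, m2, m3, m4, m5, m6, m7, m8, zero_ap] <;> ring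


/-- swap of the `e` and `o` coordinates -/
def sw {κ : K} (u : Q κ) : Q κ := (![0, 0, 0, 0, u 6, u 7, u 4, u 5, 0] : Fin 9 → K)

/-- The subring containing `a` and `b`. -/
def C {κ : K} (a b : Q κ) : NonUnitalSubring (Q κ) where
  carrier := {x | ∃ l m r s w : K, ∀ i, x i = l * a i + m * b i + r * (a * b) i + s * sw (a * b) i +
    (![0, 0, 0, 0, 0, 0, 0, 0, w] : Fin 9 → K) i}
  zero_mem' := ⟨0, 0, 0, 0, 0, fun i => by
    rw [zero_ap]; fin_cases i <;> simp⟩
  add_mem' := by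
    rintro x y ⟨l, m, r, s, w, h⟩ ⟨l', m', r', s', w', h'⟩
    refine ⟨l + l', m + m', r + r', s + s', w + w', fun i => ?_⟩
    rw [add_ap, h, h']
    fin_cases i <;> simp <;> ring
  neg_mem' := by
    rintro x ⟨l, m, r, s, w, h⟩
    refine ⟨-l, -m, -r, -s, -w, fun i => ?_⟩
    rw [neg_ap, h]
    fin_cases i <;> simp <;> ring
  mul_mem' := by
    rintro x y ⟨l, m, r, s, w, h⟩ ⟨l', m', r', s', w', h'⟩
    set A : K := (l * m' - m * l') + s * (l' * a 0 + m' * b 0) - s' * (l * a 0 + m * b 0) with hA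
    set B : K := r * (l' * a 0 + m' * b 0) - r' * (l * a 0 + m * b 0) with hB
    refine ⟨0, 0, A, B, (x * y) 8 - A * (a * b) 8, fun i => ?_⟩
    have e0 : x 0 = l * a 0 + m * b 0 := by rw [h]; simp [sw, m0]
    have e1 : x 1 = l * a 1 + m * b 1 := by rw [h]; simp [sw, m1]
    have e2 : x 2 = l * a 2 + m * b 2 := by rw [h]; simp [sw, m2]
    have e3 : x 3 = l * a 3 + m * b 3 := by rw [h]; simp [sw, m3]
    have e4 : x 4 = l * a 4 + m * b 4 + r * (a * b) 4 + s * (a * b) 6 := by rw [h]; simp [sw]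
    have e5 : x 5 = l * a 5 + m * b 5 + r * (a * b) 5 + s * (a * b) 7 := by rw [h]; simp [sw]
    have e6 : x 6 = l * a 6 + m * b 6 + r * (a * b) 6 + s * (a * b) 4 := by rw [h]; simp [sw]
    have e7 : x 7 = l * a 7 + m * b 7 + r * (a * b) 7 + s * (a * b) 5 := by rw [h]; simp [sw]
    have f0 : y 0 = l' * a 0 + m' * b 0 := by rw [h']; simp [sw, m0]
    have f1 : y 1 = l' * a 1 + m' * b 1 := by rw [h']; simp [sw, m1]
    have f2 : y 2 = l' * a 2 + m' * b 2 := by rw [h']; simp [sw, m2]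
    have f3 : y 3 = l' * a 3 + m' * b 3 := by rw [h']; simp [sw, m3]
    have f4 : y 4 = l' * a 4 + m' * b 4 + r' * (a * b) 4 + s' * (a * b) 6 := by rw [h']; simp [sw]
    have f5 : y 5 = l' * a 5 + m' * b 5 + r' * (a * b) 5 + s' * (a * b) 7 := by rw [h']; simp [sw]
    have f6 : y 6 = l' * a 6 + m' * b 6 + r' * (a * b) 6 + s' * (a * b) 4 := by rw [h']; simp [sw]
    have f7 : y 7 = l' * a 7 + m' * b 7 + r' * (a * b) 7 + s' * (a * b) 5 := by rw [h']; simp [sw]
    fin_cases i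
    · simp [m0, sw]
    · simp [m1, sw]
    · simp [m2, sw]
    · simp [m3, sw]
    · simp [sw]
      rw [m4 κ x y, e1, e2, e6, e0, f0, f1, f2, f6, m4, m6, hA, hB]
      ring
    · simp [sw]
      rw [m5 κ x y, e1, e3, e7, e0, f0, f1, f3, f7, m5, m7, hA, hB]
      ring
    · simp [sw]
      rw [m6 κ x y, e4, e0, f0, f4, m4, m6, hA, hB]
      ring
    · simp [sw]
      rw [m7 κ x y, e5, e0, f0, f5, m5, m7, hA, hB]
      ring
    · simp [sw]

theorem closure_le {κ : K} (a b : Q κ) : NonUnitalSubring.closure ({a, b} : Set (Q κ)) ≤ C a b := by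
  rw [NonUnitalSubring.closure_le]
  rintro x (rfl | rfl)
  · exact ⟨1, 0, 0, 0, 0, fun i => by fin_cases i <;> simp⟩
  · exact ⟨0, 1, 0, 0, 0, fun i => by fin_cases i <;> simp⟩

theorem sq_zero {κ : K} (x : Q κ) : x * x = 0 := by
  apply qext <;> simp only [m0, m1, m2, m3, m4, m5, m6, m7, m8, zero_ap] <;> ring

theorem jacobi_C {κ : K} (a b x y z : Q κ) (hx : x ∈ C a b) (hy : y ∈ C a b) (hz : z ∈ C a b) :
    (x * y) * z + (y * z) * x + (z * x) * y = 0 := by
  obtain ⟨l, m, r, s, w, h⟩ := hx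
  obtain ⟨l', m', r', s', w', h'⟩ := hy
  obtain ⟨l'', m'', r'', s'', w'', h''⟩ := hz
  have e0 : x 0 = l * a 0 + m * b 0 := by rw [h]; simp [sw, m0]
  have e1 : x 1 = l * a 1 + m * b 1 := by rw [h]; simp [sw, m1]
  have e2 : x 2 = l * a 2 + m * b 2 := by rw [h]; simp [sw, m2]
  have e3 : x 3 = l * a 3 + m * b 3 := by rw [h]; simp [sw, m3]
  have e4 : x 4 = l * a 4 + m * b 4 + r * (a * b) 4 + s * (a * b) 6 := by rw [h]; simp [sw]
  have e5 : x 5 = l * a 5 + m * b 5 + r * (a * b) 5 + s * (a * b) 7 := by rw [h]; simp [sw]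
  have e6 : x 6 = l * a 6 + m * b 6 + r * (a * b) 6 + s * (a * b) 4 := by rw [h]; simp [sw]
  have e7 : x 7 = l * a 7 + m * b 7 + r * (a * b) 7 + s * (a * b) 5 := by rw [h]; simp [sw]
  have f0 : y 0 = l' * a 0 + m' * b 0 := by rw [h']; simp [sw, m0]
  have f1 : y 1 = l' * a 1 + m' * b 1 := by rw [h']; simp [sw, m1]
  have f2 : y 2 = l' * a 2 + m' * b 2 := by rw [h']; simp [sw, m2]
  have f3 : y 3 = l' * a 3 + m' * b 3 := by rw [h']; simp [sw, m3]
  have f4 : y 4 = l' * a 4 + m' * b 4 + r' * (a * b) 4 + s' * (a * b) 6 := by rw [h']; simp [sw]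
  have f5 : y 5 = l' * a 5 + m' * b 5 + r' * (a * b) 5 + s' * (a * b) 7 := by rw [h']; simp [sw]
  have f6 : y 6 = l' * a 6 + m' * b 6 + r' * (a * b) 6 + s' * (a * b) 4 := by rw [h']; simp [sw]
  have f7 : y 7 = l' * a 7 + m' * b 7 + r' * (a * b) 7 + s' * (a * b) 5 := by rw [h']; simp [sw]
  have g0 : z 0 = l'' * a 0 + m'' * b 0 := by rw [h'']; simp [sw, m0]
  have g1 : z 1 = l'' * a 1 + m'' * b 1 := by rw [h'']; simp [sw, m1]
  have g2 : z 2 = l'' * a 2 + m'' * b 2 := by rw [h'']; simp [sw, m2]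
  have g3 : z 3 = l'' * a 3 + m'' * b 3 := by rw [h'']; simp [sw, m3]
  have g4 : z 4 = l'' * a 4 + m'' * b 4 + r'' * (a * b) 4 + s'' * (a * b) 6 := by rw [h'']; simp [sw]
  have g5 : z 5 = l'' * a 5 + m'' * b 5 + r'' * (a * b) 5 + s'' * (a * b) 7 := by rw [h'']; simp [sw]
  have g6 : z 6 = l'' * a 6 + m'' * b 6 + r'' * (a * b) 6 + s'' * (a * b) 4 := by rw [h'']; simp [sw]
  have g7 : z 7 = l'' * a 7 + m'' * b 7 + r'' * (a * b) 7 + s'' * (a * b) 5 := by rw [h'']; simp [sw]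
  apply qext
  · simp only [add_ap, m0, zero_ap]; ring
  · simp only [add_ap, m1, zero_ap]; ring
  · simp only [add_ap, m2, zero_ap]; ring
  · simp only [add_ap, m3, zero_ap]; ring
  · simp only [add_ap, m0, m1, m2, m4, m6, zero_ap]; ring
  · simp only [add_ap, m0, m1, m3, m5, m7, zero_ap]; ring
  · simp only [add_ap, m0, m4, m6, zero_ap, e0, e1, e2, f0, f1, f2, g0, g1, g2]; ring
  · simp only [add_ap, m0, m5, m7, zero_ap, e0, e1, e3, f0, f1, f3, g0, g1, g3]; ring
  · simp only [add_ap, m8, zero_ap]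
    rw [m4 κ x y, m5 κ x y, m4 κ y z, m5 κ y z, m4 κ z x, m5 κ z x]
    rw [e0, e1, e2, e3, e4, e5, e6, e7, f0, f1, f2, f3, f4, f5, f6, f7, g0, g1, g2, g3, g4, g5, g6, g7]
    rw [m4, m5, m6, m7]
    ring


/-- The rings `A n`: coordinates `τ`, `x`, functions `y t = (e1, e2, o1, o2)`, and `w`. -/
def A (n : ℕ) : Type := (Fin n → K) × (Fin 3 → K) × ((Fin n → K) → Fin 4 → K) × K

instance (n : ℕ) : AddCommGroup (A n) :=
  inferInstanceAs (AddCommGroup ((Fin n → K) × (Fin 3 → K) × ((Fin n → K) → Fin 4 → K) × K))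

/-- pairing -/
def dt {n : ℕ} (t τ : Fin n → K) : K := ∑ i, t i * τ i

theorem dt_add {n : ℕ} (t τ τ' : Fin n → K) : dt t (τ + τ') = dt t τ + dt t τ' := by
  simp [dt, mul_add, Finset.sum_add_distrib]

theorem dt_zero {n : ℕ} (t : Fin n → K) : dt t 0 = 0 := by simp [dt]

def amul {n : ℕ} (a b : (Fin n → K) × (Fin 3 → K) × ((Fin n → K) → Fin 4 → K) × K) :
    (Fin n → K) × (Fin 3 → K) × ((Fin n → K) → Fin 4 → K) × K :=
  (0, 0, fun t =>
    ![(a.2.1 0 * b.2.1 1 - a.2.1 1 * b.2.1 0) + (a.2.2.1 t 2 * dt t b.1 - b.2.2.1 t 2 * dt t a.1),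
      (a.2.1 0 * b.2.1 2 - a.2.1 2 * b.2.1 0) + (a.2.2.1 t 3 * dt t b.1 - b.2.2.1 t 3 * dt t a.1),
      a.2.2.1 t 0 * dt t b.1 - b.2.2.1 t 0 * dt t a.1,
      a.2.2.1 t 1 * dt t b.1 - b.2.2.1 t 1 * dt t a.1],
    ∑ t, (a.2.2.1 t 0 * b.2.2.1 t 1 - a.2.2.1 t 1 * b.2.2.1 t 0))

instance (n : ℕ) : Mul (A n) := ⟨amul⟩

section
variable {n : ℕ}

def T (a : A n) : Fin n → K := a.1
def X (a : A n) : Fin 3 → K := a.2.1
def Y (a : A n) : (Fin n → K) → Fin 4 → K := a.2.2.1
def W (a : A n) : K := a.2.2.2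

theorem aext {a b : A n} (hT : T a = T b) (hX : X a = X b) (h0 : ∀ t, Y a t 0 = Y b t 0)
    (h1 : ∀ t, Y a t 1 = Y b t 1) (h2 : ∀ t, Y a t 2 = Y b t 2) (h3 : ∀ t, Y a t 3 = Y b t 3)
    (hW : W a = W b) : a = b := by
  have hY : Y a = Y b := by
    funext t i
    fin_cases i
    · exact h0 t
    · exact h1 t
    · exact h2 t
    · exact h3 t
  exact Prod.ext hT (Prod.ext hX (Prod.ext hY hW))

theorem T_add (a b : A n) : T (a + b) = T a + T b := rfl
theorem X_add (a b : A n) (i : Fin 3) : X (a + b) i = X a i + X b i := rfl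
theorem Y_add (a b : A n) (t : Fin n → K) (i : Fin 4) : Y (a + b) t i = Y a t i + Y b t i := rfl
theorem W_add (a b : A n) : W (a + b) = W a + W b := rfl
theorem T_zero : T (0 : A n) = 0 := rfl
theorem X_zero (i : Fin 3) : X (0 : A n) i = 0 := rfl
theorem Y_zero (t : Fin n → K) (i : Fin 4) : Y (0 : A n) t i = 0 := rfl
theorem W_zero : W (0 : A n) = 0 := rfl
theorem T_neg (a : A n) : T (-a) = - T a := rfl
theorem X_neg (a : A n) (i : Fin 3) : X (-a) i = - X a i := rfl
theorem Y_neg (a : A n) (t : Fin n → K) (i : Fin 4) : Y (-a) t i = - Y a t i := rfl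
theorem W_neg (a : A n) : W (-a) = - W a := rfl

theorem T_mul (a b : A n) : T (a * b) = 0 := rfl
theorem X_mul (a b : A n) : X (a * b) = 0 := rfl
theorem Y0_mul (a b : A n) (t : Fin n → K) : Y (a * b) t 0 =
    (X a 0 * X b 1 - X a 1 * X b 0) + (Y a t 2 * dt t (T b) - Y b t 2 * dt t (T a)) := rfl
theorem Y1_mul (a b : A n) (t : Fin n → K) : Y (a * b) t 1 =
    (X a 0 * X b 2 - X a 2 * X b 0) + (Y a t 3 * dt t (T b) - Y b t 3 * dt t (T a)) := rfl
theorem Y2_mul (a b : A n) (t : Fin n → K) : Y (a * b) t 2 =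
    Y a t 0 * dt t (T b) - Y b t 0 * dt t (T a) := rfl
theorem Y3_mul (a b : A n) (t : Fin n → K) : Y (a * b) t 3 =
    Y a t 1 * dt t (T b) - Y b t 1 * dt t (T a) := rfl
theorem W_mul (a b : A n) : W (a * b) = ∑ t, (Y a t 0 * Y b t 1 - Y a t 1 * Y b t 0) := rfl

instance : NonUnitalNonAssocRing (A n) where
  left_distrib a b c := by
    apply aext
    · simp only [T_mul, T_add, add_zero]
    · simp only [X_mul]; funext i; rw [X_add]; simp [X_mul]
    · intro t; simp only [Y0_mul, Y_add, X_add, T_add, dt_add]; ring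
    · intro t; simp only [Y1_mul, Y_add, X_add, T_add, dt_add]; ring
    · intro t; simp only [Y2_mul, Y_add, T_add, dt_add]; ring
    · intro t; simp only [Y3_mul, Y_add, T_add, dt_add]; ring
    · simp only [W_mul, W_add, Y_add]
      rw [← Finset.sum_add_distrib]
      exact Finset.sum_congr rfl fun t _ => by ring
  right_distrib a b c := by
    apply aext
    · simp only [T_mul, T_add, add_zero]
    · simp only [X_mul]; funext i; rw [X_add]; simp [X_mul]
    · intro t; simp only [Y0_mul, Y_add, X_add, T_add, dt_add]; ring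
    · intro t; simp only [Y1_mul, Y_add, X_add, T_add, dt_add]; ring
    · intro t; simp only [Y2_mul, Y_add, T_add, dt_add]; ring
    · intro t; simp only [Y3_mul, Y_add, T_add, dt_add]; ring
    · simp only [W_mul, W_add, Y_add]
      rw [← Finset.sum_add_distrib]
      exact Finset.sum_congr rfl fun t _ => by ring
  zero_mul a := by
    apply aext
    · rfl
    · rfl
    · intro t; simp only [Y0_mul, Y_zero, X_zero, T_zero, dt_zero]; ring
    · intro t; simp only [Y1_mul, Y_zero, X_zero, T_zero, dt_zero]; ring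
    · intro t; simp only [Y2_mul, Y_zero, T_zero, dt_zero]; ring
    · intro t; simp only [Y3_mul, Y_zero, T_zero, dt_zero]; ring
    · simp only [W_mul, W_zero, Y_zero]
      exact Finset.sum_eq_zero fun t _ => by ring
  mul_zero a := by
    apply aext
    · rfl
    · rfl
    · intro t; simp only [Y0_mul, Y_zero, X_zero, T_zero, dt_zero]; ring
    · intro t; simp only [Y1_mul, Y_zero, X_zero, T_zero, dt_zero]; ring
    · intro t; simp only [Y2_mul, Y_zero, T_zero, dt_zero]; ring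
    · intro t; simp only [Y3_mul, Y_zero, T_zero, dt_zero]; ring
    · simp only [W_mul, W_zero, Y_zero]
      exact Finset.sum_eq_zero fun t _ => by ring

end

end Pool.Agent.Helper81.BL
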