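import Pool.Agent.Helper81.BL

set_option autoImplicit false

namespace Pool.Agent.Helper81.BL

/-- `p` is an identity of `R` -/
def Idn (R : Type) [NonUnitalNonAssocRing R] (p : FreeMagma ℕ →₀ ℤ) : Prop :=
  ∀ f : ℕ → R, ev f p = 0

/-! ### Step 1: the coordinates `0..7` of an identity of `Q 0` vanish in `Q 1`. -/

def pi1 (q : Q (1 : K)) : Q (0 : K) := (![q 0, q 1, q 2, 0, q 4, 0, q 6, 0, 0] : Fin 9 → K)
def pi2 (q : Q (1 : K)) : Q (0 : K) := (![q 0, q 1, q 3, 0, q 5, 0, q 7, 0, 0] : Fin 9 → K)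

theorem pi1_ap (q : Q (1 : K)) : pi1 q 0 = q 0 ∧ pi1 q 1 = q 1 ∧ pi1 q 2 = q 2 ∧ pi1 q 3 = 0 ∧
    pi1 q 4 = q 4 ∧ pi1 q 5 = 0 ∧ pi1 q 6 = q 6 ∧ pi1 q 7 = 0 ∧ pi1 q 8 = 0 :=
  ⟨rfl, rfl, rfl, rfl, rfl, rfl, rfl, rfl, rfl⟩

theorem pi2_ap (q : Q (1 : K)) : pi2 q 0 = q 0 ∧ pi2 q 1 = q 1 ∧ pi2 q 2 = q 3 ∧ pi2 q 3 = 0 ∧
    pi2 q 4 = q 5 ∧ pi2 q 5 = 0 ∧ pi2 q 6 = q 7 ∧ pi2 q 7 = 0 ∧ pi2 q 8 = 0 :=
  ⟨rfl, rfl, rfl, rfl, rfl, rfl, rfl, rfl, rfl⟩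

def P1 : Q (1 : K) →ₙ+* Q (0 : K) where
  toFun := pi1
  map_zero' := by apply qext <;> rfl
  map_add' a b := by
    apply qext <;> simp only [pi1_ap, add_ap, add_zero]
  map_mul' a b := by
    apply qext <;> simp only [pi1_ap, m0, m1, m2, m3, m4, m5, m6, m7, m8] <;> ring

def P2 : Q (1 : K) →ₙ+* Q (0 : K) where
  toFun := pi2
  map_zero' := by apply qext <;> rfl
  map_add' a b := by
    apply qext <;> simp only [pi2_ap, add_ap, add_zero]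
  map_mul' a b := by
    apply qext <;> simp only [pi2_ap, m0, m1, m2, m3, m4, m5, m6, m7, m8] <;> ring

theorem coords_zero (p : FreeMagma ℕ →₀ ℤ) (hp : Idn (Q (0 : K)) p) (c : ℕ → Q (1 : K)) :
    ev c p 0 = 0 ∧ ev c p 1 = 0 ∧ ev c p 2 = 0 ∧ ev c p 3 = 0 ∧ ev c p 4 = 0 ∧ ev c p 5 = 0 ∧
      ev c p 6 = 0 ∧ ev c p 7 = 0 := by
  have h1 : pi1 (ev c p) = 0 := by
    have := hom_ev P1 c p
    rw [hp] at this
    exact this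
  have h2 : pi2 (ev c p) = 0 := by
    have := hom_ev P2 c p
    rw [hp] at this
    exact this
  refine ⟨congrFun h1 0, congrFun h1 1, congrFun h1 2, congrFun h2 2, congrFun h1 4,
    congrFun h2 4, congrFun h1 6, congrFun h2 6⟩

/-! ### Step 2: the last coordinate only depends on the `τ, x` parts -/

abbrev Big := Q (1 : K) × Q (1 : K) × Q (0 : K) × Q (0 : K)

/-- the relation -/
def Rel : NonUnitalSubring Big where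
  carrier := {u | (u.1 0 = u.2.1 0 ∧ u.1 1 = u.2.1 1 ∧ u.1 2 = u.2.1 2 ∧ u.1 3 = u.2.1 3) ∧
    (u.2.2.1 0 = u.1 0 ∧ u.2.2.1 1 = - u.1 1 ∧ u.2.2.1 2 = u.1 2 ∧
      u.2.2.1 4 = u.1 4 + u.2.1 4 ∧ u.2.2.1 5 = u.1 5 - u.2.1 5 ∧ u.2.2.1 6 = u.1 6 + u.2.1 6 ∧
      u.2.2.1 7 = u.1 7 - u.2.1 7) ∧
    (u.2.2.2 0 = u.1 0 ∧ u.2.2.2 1 = - u.1 1 ∧ u.2.2.2 2 = u.1 3 ∧
      u.2.2.2 4 = u.1 5 + u.2.1 5 ∧ u.2.2.2 5 = u.1 4 - u.2.1 4 ∧ u.2.2.2 6 = u.1 7 + u.2.1 7 ∧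
      u.2.2.2 7 = u.1 6 - u.2.1 6) ∧
    u.2.2.1 8 - u.2.2.2 8 = 2 * (u.1 8 - u.2.1 8)}
  zero_mem' := by
    simp [zero_ap]
  add_mem' := by
    rintro ⟨a, b, c, d⟩ ⟨a', b', c', d'⟩ h h'
    simp only [Set.mem_ofPred_eq, Prod.fst_add, Prod.snd_add, add_ap] at h h' ⊢
    obtain ⟨⟨h1, h2, h3, h4⟩, ⟨i1, i2, i3, i4, i5, i6, i7⟩, ⟨j1, j2, j3, j4, j5, j6, j7⟩, h8⟩ := h
    obtain ⟨⟨k1, k2, k3, k4⟩, ⟨l1, l2, l3, l4, l5, l6, l7⟩, ⟨n1, n2, n3, n4, n5, n6, n7⟩, k8⟩ := h'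
    refine ⟨⟨?_, ?_, ?_, ?_⟩, ⟨?_, ?_, ?_, ?_, ?_, ?_, ?_⟩, ⟨?_, ?_, ?_, ?_, ?_, ?_, ?_⟩, ?_⟩
    · rw [h1, k1]
    · rw [h2, k2]
    · rw [h3, k3]
    · rw [h4, k4]
    · rw [i1, l1]
    · rw [i2, l2]; ring
    · rw [i3, l3]
    · rw [i4, l4]; ring
    · rw [i5, l5]; ring
    · rw [i6, l6]; ring
    · rw [i7, l7]; ring
    · rw [j1, n1]
    · rw [j2, n2]; ring
    · rw [j3, n3]
    · rw [j4, n4]; ring
    · rw [j5, n5]; ring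
    · rw [j6, n6]; ring
    · rw [j7, n7]; ring
    · linear_combination h8 + k8
  neg_mem' := by
    rintro ⟨a, b, c, d⟩ h
    simp only [Set.mem_ofPred_eq, Prod.fst_neg, Prod.snd_neg, neg_ap] at h ⊢
    obtain ⟨⟨h1, h2, h3, h4⟩, ⟨i1, i2, i3, i4, i5, i6, i7⟩, ⟨j1, j2, j3, j4, j5, j6, j7⟩, h8⟩ := h
    refine ⟨⟨?_, ?_, ?_, ?_⟩, ⟨?_, ?_, ?_, ?_, ?_, ?_, ?_⟩, ⟨?_, ?_, ?_, ?_, ?_, ?_, ?_⟩, ?_⟩
    · rw [h1]
    · rw [h2]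
    · rw [h3]
    · rw [h4]
    · rw [i1]
    · rw [i2]
    · rw [i3]
    · rw [i4]; ring
    · rw [i5]; ring
    · rw [i6]; ring
    · rw [i7]; ring
    · rw [j1]
    · rw [j2]
    · rw [j3]
    · rw [j4]; ring
    · rw [j5]; ring
    · rw [j6]; ring
    · rw [j7]; ring
    · linear_combination -h8
  mul_mem' := by
    rintro ⟨a, b, c, d⟩ ⟨a', b', c', d'⟩ h h'
    simp only [Set.mem_ofPred_eq, Prod.fst_mul, Prod.snd_mul] at h h' ⊢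
    obtain ⟨⟨h1, h2, h3, h4⟩, ⟨i1, i2, i3, i4, i5, i6, i7⟩, ⟨j1, j2, j3, j4, j5, j6, j7⟩, h8⟩ := h
    obtain ⟨⟨k1, k2, k3, k4⟩, ⟨l1, l2, l3, l4, l5, l6, l7⟩, ⟨n1, n2, n3, n4, n5, n6, n7⟩, k8⟩ := h'
    have three : (3 : K) = 0 := by decide
    refine ⟨⟨?_, ?_, ?_, ?_⟩, ⟨?_, ?_, ?_, ?_, ?_, ?_, ?_⟩, ⟨?_, ?_, ?_, ?_, ?_, ?_, ?_⟩, ?_⟩
    · simp only [m0]
    · simp only [m1]
    · simp only [m2]
    · simp only [m3]
    · simp only [m0]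
    · simp only [m1, neg_zero]
    · simp only [m2]
    · rw [m4, m4, m4, i1, i2, i3, i6, l1, l2, l3, l6, ← h1, ← h2, ← h3, ← k1, ← k2, ← k3]
      linear_combination (-(a 1 * a' 2 - a 2 * a' 1)) * three
    · rw [m5, m5, m5, i1, i7, l1, l7, ← h1, ← h2, ← h4, ← k1, ← k2, ← k4]
      ring
    · rw [m6, m6, m6, i1, i4, l1, l4, ← h1, ← k1]
      ring
    · rw [m7, m7, m7, i1, i5, l1, l5, ← h1, ← k1]
      ring
    · simp only [m0]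
    · simp only [m1, neg_zero]
    · simp only [m2, m3]
    · rw [m4, m5, m5, j1, j2, j3, j6, n1, n2, n3, n6, ← h1, ← h2, ← h4, ← k1, ← k2, ← k4]
      linear_combination (-(a 1 * a' 3 - a 3 * a' 1)) * three
    · rw [m5, m4, m4, j1, j7, n1, n7, ← h1, ← h2, ← h3, ← k1, ← k2, ← k3]
      ring
    · rw [m6, m7, m7, j1, j4, n1, n4, ← h1, ← k1]
      ring
    · rw [m7, m6, m6, j1, j5, n1, n5, ← h1, ← k1]
      ring
    · rw [m8, m8, m8, m8, i4, i5, j4, j5, l4, l5, n4, n5]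
      ring

/-- forget the `y` and `w` coordinates -/
def red (q : Q (1 : K)) : Q (1 : K) := (![q 0, q 1, q 2, q 3, 0, 0, 0, 0, 0] : Fin 9 → K)

def rr (q : Q (1 : K)) : Q (0 : K) := (![q 0, - q 1, q 2, 0, q 4, q 5, q 6, q 7, 2 * q 8] : Fin 9 → K)
def ss (q : Q (1 : K)) : Q (0 : K) := (![q 0, - q 1, q 3, 0, q 5, q 4, q 7, q 6, 0] : Fin 9 → K)

theorem last_red (p : FreeMagma ℕ →₀ ℤ) (hp : Idn (Q (0 : K)) p) (c : ℕ → Q (1 : K)) :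
    ev c p 8 = ev (fun i => red (c i)) p 8 := by
  have key := ev_mem Rel (fun i => ((c i, red (c i), rr (c i), ss (c i)) : Big)) (fun i => by
    show _ ∧ _ ∧ _ ∧ _
    simp [red, rr, ss]) p
  have e1 : (ev (fun i => ((c i, red (c i), rr (c i), ss (c i)) : Big)) p).1 = ev c p :=
    hom_ev (NonUnitalRingHom.fst (Q (1 : K)) (Q (1 : K) × Q (0 : K) × Q (0 : K))) _ p
  have e2 : (ev (fun i => ((c i, red (c i), rr (c i), ss (c i)) : Big)) p).2.1 =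
      ev (fun i => red (c i)) p :=
    hom_ev ((NonUnitalRingHom.fst (Q (1 : K)) (Q (0 : K) × Q (0 : K))).comp
      (NonUnitalRingHom.snd (Q (1 : K)) (Q (1 : K) × Q (0 : K) × Q (0 : K)))) _ p
  have e3 : (ev (fun i => ((c i, red (c i), rr (c i), ss (c i)) : Big)) p).2.2.1 =
      ev (fun i => rr (c i)) p :=
    hom_ev ((NonUnitalRingHom.fst (Q (0 : K)) (Q (0 : K))).comp ((NonUnitalRingHom.snd (Q (1 : K)) (Q (0 : K) × Q (0 : K))).comp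
      (NonUnitalRingHom.snd (Q (1 : K)) (Q (1 : K) × Q (0 : K) × Q (0 : K))))) _ p
  have e4 : (ev (fun i => ((c i, red (c i), rr (c i), ss (c i)) : Big)) p).2.2.2 =
      ev (fun i => ss (c i)) p :=
    hom_ev ((NonUnitalRingHom.snd (Q (0 : K)) (Q (0 : K))).comp ((NonUnitalRingHom.snd (Q (1 : K)) (Q (0 : K) × Q (0 : K))).comp
      (NonUnitalRingHom.snd (Q (1 : K)) (Q (1 : K) × Q (0 : K) × Q (0 : K))))) _ p
  obtain ⟨-, -, -, h8⟩ := key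
  rw [e1, e2, e3, e4, hp, hp] at h8
  simp only [zero_ap, sub_zero] at h8
  have h2 : (2 : K) ≠ 0 := by decide
  have h3 : ev c p 8 - ev (fun i => red (c i)) p 8 = 0 := by
    rcases mul_eq_zero.mp h8.symm with h | h
    · exact absurd h h2
    · exact h
  exact sub_eq_zero.mp h3

end Pool.Agent.Helper81.BL
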