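import Pool.Agent.Helper81.BL2

set_option autoImplicit false

namespace Pool.Agent.Helper81.BL

variable {n : ℕ}

/-! ### Step 3: the relation between `A n` and a power of `Q 1` -/

abbrev Pw (n : ℕ) := A n × ((Fin n → K) → Q (1 : K))

def RelA (n : ℕ) : NonUnitalSubring (Pw n) where
  carrier := {u | (∀ t, u.2 t 0 = dt t (T u.1) ∧ u.2 t 1 = X u.1 0 ∧ u.2 t 2 = X u.1 1 ∧
      u.2 t 3 = X u.1 2 ∧ u.2 t 4 = Y u.1 t 0 ∧ u.2 t 5 = Y u.1 t 1 ∧ u.2 t 6 = Y u.1 t 2 ∧
      u.2 t 7 = Y u.1 t 3) ∧ W u.1 = ∑ t, u.2 t 8}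
  zero_mem' := by
    refine ⟨fun t => ⟨?_, rfl, rfl, rfl, rfl, rfl, rfl, rfl⟩, ?_⟩
    · show (0 : K) = dt t 0
      rw [dt_zero]
    · show (0 : K) = ∑ t, 0
      rw [Finset.sum_const_zero]
  add_mem' := by
    rintro ⟨a, c⟩ ⟨a', c'⟩ ⟨h, hw⟩ ⟨h', hw'⟩
    dsimp only at h hw h' hw'
    refine ⟨fun t => ?_, ?_⟩
    · obtain ⟨h0, h1, h2, h3, h4, h5, h6, h7⟩ := h t
      obtain ⟨k0, k1, k2, k3, k4, k5, k6, k7⟩ := h' t
      refine ⟨?_, ?_, ?_, ?_, ?_, ?_, ?_, ?_⟩
      · show c t 0 + c' t 0 = dt t (T a + T a')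
        rw [dt_add, h0, k0]
      · show c t 1 + c' t 1 = X a 0 + X a' 0
        rw [h1, k1]
      · show c t 2 + c' t 2 = X a 1 + X a' 1
        rw [h2, k2]
      · show c t 3 + c' t 3 = X a 2 + X a' 2
        rw [h3, k3]
      · show c t 4 + c' t 4 = Y a t 0 + Y a' t 0
        rw [h4, k4]
      · show c t 5 + c' t 5 = Y a t 1 + Y a' t 1
        rw [h5, k5]
      · show c t 6 + c' t 6 = Y a t 2 + Y a' t 2
        rw [h6, k6]
      · show c t 7 + c' t 7 = Y a t 3 + Y a' t 3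
        rw [h7, k7]
    · show W a + W a' = ∑ t, (c t 8 + c' t 8)
      rw [Finset.sum_add_distrib, hw, hw']
  neg_mem' := by
    rintro ⟨a, c⟩ ⟨h, hw⟩
    dsimp only at h hw
    refine ⟨fun t => ?_, ?_⟩
    · obtain ⟨h0, h1, h2, h3, h4, h5, h6, h7⟩ := h t
      refine ⟨?_, ?_, ?_, ?_, ?_, ?_, ?_, ?_⟩
      · show - c t 0 = dt t (- T a)
        rw [h0]
        simp [dt]
      · show - c t 1 = - X a 0
        rw [h1]
      · show - c t 2 = - X a 1
        rw [h2]
      · show - c t 3 = - X a 2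
        rw [h3]
      · show - c t 4 = - Y a t 0
        rw [h4]
      · show - c t 5 = - Y a t 1
        rw [h5]
      · show - c t 6 = - Y a t 2
        rw [h6]
      · show - c t 7 = - Y a t 3
        rw [h7]
    · show - W a = ∑ t, - c t 8
      rw [Finset.sum_neg_distrib, hw]
  mul_mem' := by
    rintro ⟨a, c⟩ ⟨a', c'⟩ ⟨h, hw⟩ ⟨h', hw'⟩
    dsimp only at h hw h' hw'
    refine ⟨fun t => ?_, ?_⟩
    · obtain ⟨h0, h1, h2, h3, h4, h5, h6, h7⟩ := h t
      obtain ⟨k0, k1, k2, k3, k4, k5, k6, k7⟩ := h' t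
      refine ⟨?_, ?_, ?_, ?_, ?_, ?_, ?_, ?_⟩
      · show (c t * c' t) 0 = dt t 0
        rw [dt_zero, m0]
      · rfl
      · rfl
      · rfl
      · show (c t * c' t) 4 = Y (a * a') t 0
        rw [m4, Y0_mul, h0, h1, h2, h6, k0, k1, k2, k6]
      · show (c t * c' t) 5 = Y (a * a') t 1
        rw [m5, Y1_mul, h0, h1, h3, h7, k0, k1, k3, k7, one_mul]
      · show (c t * c' t) 6 = Y (a * a') t 2
        rw [m6, Y2_mul, h0, h4, k0, k4]
      · show (c t * c' t) 7 = Y (a * a') t 3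
        rw [m7, Y3_mul, h0, h5, k0, k5]
    · show W (a * a') = ∑ t, (c t * c' t) 8
      rw [W_mul]
      refine Finset.sum_congr rfl fun t _ => ?_
      obtain ⟨h0, h1, h2, h3, h4, h5, h6, h7⟩ := h t
      obtain ⟨k0, k1, k2, k3, k4, k5, k6, k7⟩ := h' t
      rw [m8, h4, h5, k4, k5]

/-- the family of elements of `Q 1` attached to an element of `A n` -/
noncomputable def fam (a : A n) (t : Fin n → K) : Q (1 : K) :=
  (![dt t (T a), X a 0, X a 1, X a 2, Y a t 0, Y a t 1, Y a t 2, Y a t 3,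
    if t = 0 then W a else 0] : Fin 9 → K)

noncomputable def bas (τ : Fin n → K) (x : Fin 3 → K) (t : Fin n → K) : Q (1 : K) :=
  (![dt t τ, x 0, x 1, x 2, 0, 0, 0, 0, 0] : Fin 9 → K)

theorem fam_mem (a : A n) : ((a, fam a) : Pw n) ∈ RelA n := by
  refine ⟨fun t => ⟨rfl, rfl, rfl, rfl, rfl, rfl, rfl, rfl⟩, ?_⟩
  show W a = ∑ t : Fin n → K, if t = 0 then W a else 0
  rw [Finset.sum_ite_eq' Finset.univ (0 : Fin n → K) fun _ => W a]
  simp

def evalAt (t : Fin n → K) : Pw n →ₙ+* Q (1 : K) where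
  toFun u := u.2 t
  map_zero' := rfl
  map_add' _ _ := rfl
  map_mul' _ _ := rfl

theorem ev_A (p : FreeMagma ℕ →₀ ℤ) (hp : Idn (Q (0 : K)) p) (g : ℕ → A n) :
    T (ev g p) = 0 ∧ X (ev g p) = 0 ∧ Y (ev g p) = 0 ∧
      W (ev g p) = ∑ t, ev (fun i => bas (T (g i)) (X (g i)) t) p 8 := by
  have key := ev_mem (RelA n) (fun i => ((g i, fam (g i)) : Pw n)) (fun i => fam_mem (g i)) p
  have e1 : (ev (fun i => ((g i, fam (g i)) : Pw n)) p).1 = ev g p :=
    hom_ev (NonUnitalRingHom.fst (A n) ((Fin n → K) → Q (1 : K))) _ p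
  have e2 : ∀ t, (ev (fun i => ((g i, fam (g i)) : Pw n)) p).2 t = ev (fun i => fam (g i) t) p :=
    fun t => hom_ev (evalAt t) _ p
  obtain ⟨h, hw⟩ := key
  rw [e1] at hw
  simp only [e2] at hw
  simp only [e1, e2] at h
  refine ⟨?_, ?_, ?_, ?_⟩
  · funext i
    obtain ⟨c0, -⟩ := coords_zero p hp (fun i' => fam (g i') (Pi.single i 1))
    obtain ⟨h0, -⟩ := h (Pi.single i 1)
    rw [c0] at h0
    have : dt (Pi.single i 1) (T (ev g p)) = T (ev g p) i := by
      simp [dt, Pi.single_apply]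
    rw [this] at h0
    exact h0.symm
  · obtain ⟨c0, c1, c2, c3, -⟩ := coords_zero p hp (fun i' => fam (g i') 0)
    obtain ⟨h0, h1, h2, h3, -⟩ := h 0
    funext i
    fin_cases i
    · exact h1.symm.trans c1
    · exact h2.symm.trans c2
    · exact h3.symm.trans c3
  · funext t i
    obtain ⟨c0, c1, c2, c3, c4, c5, c6, c7⟩ := coords_zero p hp (fun i' => fam (g i') t)
    obtain ⟨h0, h1, h2, h3, h4, h5, h6, h7⟩ := h t
    fin_cases i
    · exact h4.symm.trans c4
    · exact h5.symm.trans c5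
    · exact h6.symm.trans c6
    · exact h7.symm.trans c7
  · rw [hw]
    refine Finset.sum_congr rfl fun t _ => ?_
    rw [last_red p hp]
    rfl

/-! ### Step 4: identities in few variables -/

theorem exists_kernel (N n : ℕ) (h : N < n) (τ : ℕ → Fin n → K) :
    ∃ v : Fin n → K, v ≠ 0 ∧ ∀ i, i < N → dt v (τ i) = 0 := by
  let f : (Fin n → K) →ₗ[K] (Fin N → K) :=
    { toFun := fun v j => dt v (τ j)
      map_add' := fun v w => by
        funext j
        simp [dt, add_mul, Finset.sum_add_distrib]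
      map_smul' := fun c v => by
        funext j
        simp [dt, Finset.mul_sum, mul_assoc] }
  have hlt : Module.finrank K (Fin N → K) < Module.finrank K (Fin n → K) := by
    simpa using h
  have hker := LinearMap.ker_ne_bot_of_finrank_lt (f := f) hlt
  obtain ⟨v, hv, hv0⟩ := (Submodule.ne_bot_iff _).mp hker
  refine ⟨v, hv0, fun i hi => ?_⟩
  exact congrFun (LinearMap.mem_ker.mp hv) ⟨i, hi⟩

theorem sum_zero_of_periodic (v : Fin n → K) (hv : v ≠ 0) (G : (Fin n → K) → K)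
    (hG : ∀ t, G (t + v) = G t) : ∑ t, G t = 0 := by
  obtain ⟨j, hj⟩ : ∃ j, v j ≠ 0 := by
    by_contra hcon
    push Not at hcon
    exact hv (funext hcon)
  have h1 : ∑ t, G t * (t j * (v j)⁻¹) = ∑ t, G t * (t j * (v j)⁻¹) + ∑ t, G t := by
    rw [← Finset.sum_add_distrib]
    rw [← Equiv.sum_comp (Equiv.addRight v) (fun t => G t * (t j * (v j)⁻¹))]
    refine Finset.sum_congr rfl fun t _ => ?_
    simp only [Equiv.coe_addRight, Pi.add_apply, hG]
    field_simp
  exact left_eq_add.mp h1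

theorem idn_A (p : FreeMagma ℕ →₀ ℤ) (hp : Idn (Q (0 : K)) p) (N : ℕ) (hN : N < n)
    (hb : ∀ m ∈ p.support, bnd m ≤ N) (g : ℕ → A n) : ev g p = 0 := by
  obtain ⟨hT, hX, hY, hW⟩ := ev_A p hp g
  obtain ⟨v, hv, hvi⟩ := exists_kernel N n hN (fun i => T (g i))
  have hs : W (ev g p) = 0 := by
    rw [hW]
    apply sum_zero_of_periodic v hv
    intro t
    have hev : ev (fun i => bas (T (g i)) (X (g i)) (t + v)) p =
        ev (fun i => bas (T (g i)) (X (g i)) t) p := by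
      refine ev_congr _ _ N ?_ p hb
      intro i hi
      have : dt (t + v) (T (g i)) = dt t (T (g i)) := by
        have e : dt (t + v) (T (g i)) = dt t (T (g i)) + dt v (T (g i)) := by
          simp [dt, add_mul, Finset.sum_add_distrib]
        rw [e, hvi i hi, add_zero]
      unfold bas
      rw [this]
    rw [hev]
  refine aext hT hX ?_ ?_ ?_ ?_ hs
  · intro t; rw [hY]; rfl
  · intro t; rw [hY]; rfl
  · intro t; rw [hY]; rfl
  · intro t; rw [hY]; rfl

end Pool.Agent.Helper81.BL
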