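import Pool.Agent.Helper81.BL3

set_option autoImplicit false

namespace Pool.Agent.Helper81.BL

/-! ### Step 5: the identities `p_m` -/

/-- right multiplications by the variables `z_k = x_{k+4}` -/
def str (w : FreeMagma ℕ) : ℕ → FreeMagma ℕ
  | 0 => w
  | k + 1 => str w k * FreeMagma.of (k + 4)

def LL : Fin 3 → FreeMagma ℕ :=
  ![(FreeMagma.of 0 * FreeMagma.of 1) * FreeMagma.of 2,
    (FreeMagma.of 1 * FreeMagma.of 2) * FreeMagma.of 0,
    (FreeMagma.of 2 * FreeMagma.of 0) * FreeMagma.of 1]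

def RR : Fin 3 → FreeMagma ℕ :=
  ![(FreeMagma.of 0 * FreeMagma.of 3) * FreeMagma.of 2,
    (FreeMagma.of 3 * FreeMagma.of 2) * FreeMagma.of 0,
    (FreeMagma.of 2 * FreeMagma.of 0) * FreeMagma.of 3]

noncomputable def pm (m : ℕ) : FreeMagma ℕ →₀ ℤ :=
  ∑ i : Fin 3, ∑ j : Fin 3, Finsupp.single (str (LL i) m * str (RR j) m) 1

section
variable {B : Type*} [NonUnitalNonAssocRing B]

theorem ev_add (g : ℕ → B) (p q : FreeMagma ℕ →₀ ℤ) : ev g (p + q) = ev g p + ev g q := by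
  unfold ev
  apply Finsupp.sum_add_index'
  · intro m; exact zero_smul _ _
  · intro m a b; exact add_smul _ _ _

theorem ev_single (g : ℕ → B) (m : FreeMagma ℕ) : ev g (Finsupp.single m 1) = FreeMagma.lift g m := by
  unfold ev
  rw [Finsupp.sum_single_index, one_smul]
  exact zero_smul _ _

theorem ev_zero (g : ℕ → B) : ev g 0 = 0 := Finsupp.sum_zero_index

theorem ev_sum {ι : Type*} (s : Finset ι) (g : ℕ → B) (f : ι → FreeMagma ℕ →₀ ℤ) :
    ev g (∑ i ∈ s, f i) = ∑ i ∈ s, ev g (f i) := by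
  classical
  induction s using Finset.induction_on with
  | empty => simp [ev_zero]
  | insert a s ha ih => rw [Finset.sum_insert ha, Finset.sum_insert ha, ev_add, ih]

/-- right multiplications -/
def rm (g : ℕ → B) : ℕ → B → B
  | 0, a => a
  | k + 1, a => rm g k a * g (k + 4)

theorem lift_str (g : ℕ → B) (w : FreeMagma ℕ) (m : ℕ) :
    FreeMagma.lift g (str w m) = rm g m (FreeMagma.lift g w) := by
  induction m with
  | zero => rfl
  | succ k ih =>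
    show FreeMagma.lift g (str w k * FreeMagma.of (k + 4)) = _
    rw [map_mul, ih]
    rfl

theorem rm_add (g : ℕ → B) (m : ℕ) (a b : B) : rm g m (a + b) = rm g m a + rm g m b := by
  induction m with
  | zero => rfl
  | succ k ih =>
    show rm g k (a + b) * g (k + 4) = rm g k a * g (k + 4) + rm g k b * g (k + 4)
    rw [ih, add_mul]

def J1 (g : ℕ → B) : B := (g 0 * g 1) * g 2 + (g 1 * g 2) * g 0 + (g 2 * g 0) * g 1
def J2 (g : ℕ → B) : B := (g 0 * g 3) * g 2 + (g 3 * g 2) * g 0 + (g 2 * g 0) * g 3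

theorem ev_pm (g : ℕ → B) (m : ℕ) : ev g (pm m) = rm g m (J1 g) * rm g m (J2 g) := by
  unfold pm J1 J2
  rw [rm_add, rm_add, rm_add, rm_add, ev_sum]
  simp only [ev_sum, ev_single, map_mul, lift_str]
  rw [Fin.sum_univ_three, Fin.sum_univ_three, Fin.sum_univ_three, Fin.sum_univ_three]
  have l0 : FreeMagma.lift g (LL 0) = (g 0 * g 1) * g 2 := rfl
  have l1 : FreeMagma.lift g (LL 1) = (g 1 * g 2) * g 0 := rfl
  have l2 : FreeMagma.lift g (LL 2) = (g 2 * g 0) * g 1 := rfl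
  have r0 : FreeMagma.lift g (RR 0) = (g 0 * g 3) * g 2 := rfl
  have r1 : FreeMagma.lift g (RR 1) = (g 3 * g 2) * g 0 := rfl
  have r2 : FreeMagma.lift g (RR 2) = (g 2 * g 0) * g 3 := rfl
  rw [l0, l1, l2, r0, r1, r2]
  simp only [mul_add, add_mul]
  abel

end

/-! #### `p_m` is an identity of `Q 0` -/

def ZZ (q : Q (0 : K)) : Prop := q 0 = 0 ∧ q 1 = 0 ∧ q 2 = 0 ∧ q 3 = 0 ∧ q 5 = 0 ∧ q 7 = 0

theorem ZZ_jac (x y z : Q (0 : K)) : ZZ ((x * y) * z + (y * z) * x + (z * x) * y) := by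
  refine ⟨?_, ?_, ?_, ?_, ?_, ?_⟩
  · simp only [add_ap, m0]; ring
  · simp only [add_ap, m1]; ring
  · simp only [add_ap, m2]; ring
  · simp only [add_ap, m3]; ring
  · simp only [add_ap, m0, m1, m3, m5, m7]; ring
  · simp only [add_ap, m0, m5, m7]; ring

theorem ZZ_mul (x y : Q (0 : K)) (hx : ZZ x) : ZZ (x * y) := by
  obtain ⟨h0, h1, h2, h3, h5, h7⟩ := hx
  refine ⟨m0 _ _ _, m1 _ _ _, m2 _ _ _, m3 _ _ _, ?_, ?_⟩
  · rw [m5, h0, h7]; ring
  · rw [m7, h0, h5]; ring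

theorem ZZ_rm (g : ℕ → Q (0 : K)) (m : ℕ) (x : Q (0 : K)) (hx : ZZ x) : ZZ (rm g m x) := by
  induction m with
  | zero => exact hx
  | succ k ih => exact ZZ_mul _ _ ih

theorem ZZ_mul_ZZ (x y : Q (0 : K)) (hx : ZZ x) (hy : ZZ y) : x * y = 0 := by
  obtain ⟨h0, h1, h2, h3, h5, h7⟩ := hx
  obtain ⟨k0, k1, k2, k3, k5, k7⟩ := hy
  apply qext <;>
    simp only [m0, m1, m2, m3, m4, m5, m6, m7, m8, zero_ap, h0, h1, h2, h3, h5, h7, k0, k1, k2, k3,
      k5, k7] <;> ring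

theorem idn_pm (m : ℕ) : Idn (Q (0 : K)) (pm m) := by
  intro g
  rw [ev_pm]
  exact ZZ_mul_ZZ _ _ (ZZ_rm g m _ (ZZ_jac _ _ _)) (ZZ_rm g m _ (ZZ_jac _ _ _))

/-! #### `p_m` fails in `A (m+1)` for odd `m` -/

variable {m : ℕ}

def co (t : Fin (m + 1) → K) (k : ℕ) : K := if h : k < m + 1 then t ⟨k, h⟩ else 0

def PP (t : Fin (m + 1) → K) (k : ℕ) : K := ∏ i ∈ Finset.range (k + 1), co t i

def dlt (m k : ℕ) : Fin (m + 1) → K := fun i => if (i : ℕ) = k then 1 else 0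

theorem dt_dlt (t : Fin (m + 1) → K) (k : ℕ) : dt t (dlt m k) = co t k := by
  unfold dt dlt co
  simp only [mul_ite, mul_one, mul_zero]
  split_ifs with h
  · rw [Finset.sum_eq_single (⟨k, h⟩ : Fin (m + 1))]
    · simp
    · intro b _ hb
      rw [if_neg]
      intro hbk
      exact hb (Fin.ext hbk)
    · intro hcon
      exact absurd (Finset.mem_univ _) hcon
  · apply Finset.sum_eq_zero
    intro i _
    rw [if_neg]
    intro hik
    exact h (hik ▸ i.isLt)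

def tau (m k : ℕ) : A (m + 1) := (dlt m k, 0, 0, 0)
def xel (m : ℕ) (x : Fin 3 → K) : A (m + 1) := (0, x, 0, 0)

def gg (m : ℕ) : ℕ → A (m + 1)
  | 0 => xel m ![1, 0, 0]
  | 1 => xel m ![0, 1, 0]
  | 2 => tau m 0
  | 3 => xel m ![0, 0, 1]
  | k + 4 => tau m (k + 1)

theorem T_tau (k : ℕ) : T (tau m k) = dlt m k := rfl
theorem X_tau (k : ℕ) (i : Fin 3) : X (tau m k) i = 0 := rfl
theorem Y_tau (k : ℕ) (t : Fin (m + 1) → K) (i : Fin 4) : Y (tau m k) t i = 0 := rfl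
theorem T_xel (x : Fin 3 → K) : T (xel m x) = 0 := rfl
theorem X_xel (x : Fin 3 → K) (i : Fin 3) : X (xel m x) i = x i := rfl
theorem Y_xel (x : Fin 3 → K) (t : Fin (m + 1) → K) (i : Fin 4) : Y (xel m x) t i = 0 := rfl

def Inv (α β : K) (k : ℕ) (a : A (m + 1)) : Prop :=
  T a = 0 ∧ X a = 0 ∧ ∀ t,
    (k % 2 = 0 → Y a t 0 = 0 ∧ Y a t 1 = 0 ∧ Y a t 2 = α * PP t k ∧ Y a t 3 = β * PP t k) ∧
    (k % 2 = 1 → Y a t 0 = α * PP t k ∧ Y a t 1 = β * PP t k ∧ Y a t 2 = 0 ∧ Y a t 3 = 0)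

theorem PP_succ (t : Fin (m + 1) → K) (k : ℕ) : PP t (k + 1) = PP t k * co t (k + 1) :=
  Finset.prod_range_succ _ _

theorem Inv_step (α β : K) (k : ℕ) (a : A (m + 1)) (h : Inv α β k a) :
    Inv α β (k + 1) (a * tau m (k + 1)) := by
  obtain ⟨hT, hX, hY⟩ := h
  refine ⟨T_mul _ _, X_mul _ _, fun t => ?_⟩
  obtain ⟨he, ho⟩ := hY t
  rw [Y0_mul, Y1_mul, Y2_mul, Y3_mul]
  simp only [T_tau, X_tau, Y_tau, dt_dlt, PP_succ]
  constructor
  · intro hk
    obtain ⟨y0, y1, y2, y3⟩ := ho (by omega)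
    rw [y0, y1, y2, y3]
    refine ⟨by ring, by ring, by ring, by ring⟩
  · intro hk
    obtain ⟨y0, y1, y2, y3⟩ := he (by omega)
    rw [y0, y1, y2, y3]
    refine ⟨by ring, by ring, by ring, by ring⟩

theorem Inv_rm (α β : K) (k : ℕ) (a : A (m + 1)) (h : Inv α β 0 a) :
    Inv α β k (rm (gg m) k a) := by
  induction k with
  | zero => exact h
  | succ k ih => exact Inv_step α β k _ ih

theorem PP_zero (t : Fin (m + 1) → K) : PP t 0 = co t 0 := by
  unfold PP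
  rw [Finset.prod_range_one]

theorem Inv_J1 : Inv 1 0 0 (J1 (gg m)) := by
  have T0 : T (0 : A (m + 1)) = 0 := rfl
  refine ⟨?_, ?_, fun t => ⟨fun _ => ?_, fun h => ?_⟩⟩
  · simp only [J1, T_add, T_mul, add_zero]
  · funext i
    simp [J1, X_add, X_mul]
  · simp only [J1, Y_add, Y0_mul, Y1_mul, Y2_mul, Y3_mul, T_mul, X_mul, gg, T_tau, X_tau, Y_tau, T_xel, X_xel, Y_xel,
      dt_dlt, dt_zero, PP_zero]
    simp
  · exact absurd h (by decide)

theorem Inv_J2 : Inv 0 1 0 (J2 (gg m)) := by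
  refine ⟨?_, ?_, fun t => ⟨fun _ => ?_, fun h => ?_⟩⟩
  · simp only [J2, T_add, T_mul, add_zero]
  · funext i
    simp [J2, X_add, X_mul]
  · simp only [J2, Y_add, Y0_mul, Y1_mul, Y2_mul, Y3_mul, T_mul, X_mul, gg, T_tau, X_tau, Y_tau, T_xel, X_xel, Y_xel,
      dt_dlt, dt_zero, PP_zero]
    simp
  · exact absurd h (by decide)

theorem W_pm (hm : m % 2 = 1) : W (ev (gg m) (pm m)) = 2 ^ (m + 1) := by
  rw [ev_pm, W_mul]
  have h1 := Inv_rm 1 0 m _ (Inv_J1 (m := m))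
  have h2 := Inv_rm 0 1 m _ (Inv_J2 (m := m))
  have h3 : ∀ t : Fin (m + 1) → K, Y (rm (gg m) m (J1 (gg m))) t 0 * Y (rm (gg m) m (J2 (gg m))) t 1 -
      Y (rm (gg m) m (J1 (gg m))) t 1 * Y (rm (gg m) m (J2 (gg m))) t 0 = ∏ i, (t i) ^ 2 := by
    intro t
    obtain ⟨a0, a1, -, -⟩ := (h1.2.2 t).2 hm
    obtain ⟨b0, b1, -, -⟩ := (h2.2.2 t).2 hm
    rw [a0, a1, b0, b1]
    have hP : PP t m = ∏ i, t i := by
      unfold PP
      rw [Finset.prod_range]
      refine Finset.prod_congr rfl fun i _ => ?_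
      unfold co
      rw [dif_pos i.isLt]
    rw [hP, Finset.prod_pow]
    ring
  rw [Finset.sum_congr rfl fun t _ => h3 t]
  have h4 := (Finset.prod_univ_sum (fun _ : Fin (m + 1) => (Finset.univ : Finset K))
    (fun _ x => x ^ 2)).symm
  rw [Fintype.piFinset_univ] at h4
  rw [h4]
  have h5 : ∑ x : K, x ^ 2 = 2 := by decide
  rw [Finset.prod_congr rfl fun _ _ => h5, Finset.prod_const, Finset.card_univ, Fintype.card_fin]

theorem not_pm (hm : m % 2 = 1) : ev (gg m) (pm m) ≠ 0 := by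
  intro h
  have h1 := W_pm hm
  rw [h, W_zero] at h1
  have h2 : (2 : K) ≠ 0 := by decide
  exact pow_ne_zero _ h2 h1.symm

end Pool.Agent.Helper81.BL
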