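import Mathlib

set_option autoImplicit false

open Matrix

namespace Pool.Agent.Helper81.Fmr

universe u

/-- `M` is a completion of `A ⊗ I_b`: block `(i, j)` of `M` is `a • I_b` whenever the entry `(i, j)`
of the partial matrix `A` is specified and equal to `a` (unspecified entries are `none`). -/
def IsCompletion {F : Type u} [Field F] {I J : Type} (A : Matrix I J (Option F)) (b : ℕ)
    (M : Matrix (I × Fin b) (J × Fin b) F) : Prop :=
  ∀ i j a, A i j = some a → ∀ k l, M (i, k) (j, l) = if k = l then a else 0

/-- `mr A b` is the least rank of a completion of `A ⊗ I_b`. -/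
noncomputable def mr {F : Type u} [Field F] {I J : Type} [Fintype I] [Fintype J]
    (A : Matrix I J (Option F)) (b : ℕ) : ℕ :=
  sInf {r | ∃ M : Matrix (I × Fin b) (J × Fin b) F, IsCompletion A b M ∧ M.rank = r}

/-- The fractional minimal rank: infimum of `mr A b / b` over `b ≥ 1`. -/
noncomputable def fmr {F : Type u} [Field F] {I J : Type} [Fintype I] [Fintype J]
    (A : Matrix I J (Option F)) : ℝ :=
  ⨅ b : ℕ+, (mr A (b : ℕ) : ℝ) / ((b : ℕ) : ℝ)

end Pool.Agent.Helper81.Fmr
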