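import Pool.Agent.Helper81.FmrDefs

set_option autoImplicit false

open Matrix

namespace Pool.Agent.Helper81.Fmr

universe u

theorem schur_exact {F : Type u} [Field F] {c I J β : Type} [Fintype c] [DecidableEq c]
    [Fintype I] [Fintype J] [Fintype β] [DecidableEq β]
    (M : Matrix ((c ⊕ I) × β) ((c ⊕ J) × β) F)
    (h1 : ∀ a a' k l, M (Sum.inl a, k) (Sum.inl a', l) = if a = a' ∧ k = l then 1 else 0)
    (hr : M.rank ≤ Fintype.card c * Fintype.card β) (i : I) (j : J) (k l : β) :
    M (Sum.inr i, k) (Sum.inr j, l) =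
      ∑ x : c × β, M (Sum.inr i, k) (Sum.inl x.1, x.2) * M (Sum.inl x.1, x.2) (Sum.inr j, l) := by
  set f : (c × β) ⊕ Unit → (c ⊕ I) × β := Sum.elim (fun x => (Sum.inl x.1, x.2)) (fun _ => (Sum.inr i, k)) with hf
  set g : (c × β) ⊕ Unit → (c ⊕ J) × β := Sum.elim (fun x => (Sum.inl x.1, x.2)) (fun _ => (Sum.inr j, l)) with hg
  have hN : (M.submatrix f g).rank ≤ Fintype.card c * Fintype.card β :=
    le_trans (rank_submatrix_le M f g) hr
  have hdet : (M.submatrix f g).det = 0 := by
    by_contra hne
    have := rank_of_det_ne_zero hne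
    rw [this] at hN
    simp at hN
  have hblk : M.submatrix f g = fromBlocks 1 (Matrix.of fun x (_ : Unit) => M (Sum.inl x.1, x.2) (Sum.inr j, l))
      (Matrix.of fun (_ : Unit) (x : c × β) => M (Sum.inr i, k) (Sum.inl x.1, x.2))
      (Matrix.of fun (_ : Unit) (_ : Unit) => M (Sum.inr i, k) (Sum.inr j, l)) := by
    ext a b
    rcases a with a | a <;> rcases b with b | b <;> simp [hf, hg, h1, Matrix.one_apply, Prod.ext_iff]
  rw [hblk, det_fromBlocks_one₁₁] at hdet
  rw [Matrix.det_unique] at hdet
  simp only [Matrix.sub_apply, Matrix.mul_apply, Matrix.of_apply] at hdet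
  rw [sub_eq_zero] at hdet
  exact hdet

theorem rank_add_le' {F : Type u} [Field F] {I J : Type} [Fintype I] [Fintype J]
    (A B : Matrix I J F) : (A + B).rank ≤ A.rank + B.rank := by
  classical
  unfold Matrix.rank
  rw [Matrix.mulVecLin_add]
  refine le_trans (Submodule.finrank_mono (LinearMap.range_add_le _ _)) ?_
  exact Submodule.finrank_add_le_finrank_add_finrank _ _

theorem rank_le_cols {F : Type u} [Field F] {I J : Type} [Fintype I] [Fintype J]
    (A : Matrix I J F) (s : Finset J) (hs : ∀ j, j ∉ s → ∀ i, A i j = 0) : A.rank ≤ s.card := by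
  rw [← Matrix.rank_transpose]
  apply rank_le_card_of_support_subset
  rw [Function.support_subset_iff']
  intro j hj
  ext i
  simpa using hs j (by simpa using hj) i

/-- A finite system of equations in noncommuting unknowns `z i`, `i : V`: products
`z (l m) * z (r m) = z (o m)`, differences `z i - z j = d i j` and constants `z i = k i`. -/
structure Sys (F : Type u) (V μ : Type) where
  l : μ → V
  r : μ → V
  o : μ → V
  d : V → V → Option F
  k : V → Option F

section
variable {F : Type u} [Field F] {V μ : Type} [DecidableEq V]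

def Qp (S : Sys F V μ) : Option (V × Fin 3) → Fin 3 → Option F
  | none => ![some 1, some (-1), some 0]
  | some (_, 0) => ![none, some (-1), some 0]
  | some (i, 1) => ![some 0, some (-1), S.k i]
  | some (_, 2) => ![some (-1), some 0, none]

def Pp (_ : Sys F V μ) : (V × Bool) ⊕ μ → Fin 3 → Option F
  | Sum.inl (_, false) => ![some 1, none, some 1]
  | Sum.inl (_, true) => ![none, none, some 1]
  | Sum.inr _ => ![none, none, some 1]

def Sp (S : Sys F V μ) : Option (V × Fin 3) → (V × Bool) ⊕ μ → Option F
  | none, Sum.inl (_, true) => some 0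
  | some (i, 0), Sum.inl (j, false) => if i = j then some 0 else none
  | some (i, 1), Sum.inl (j, false) => if i = j then some 0 else S.d i j
  | some (i, 1), Sum.inl (j, true) => if i = j then some 0 else none
  | some (i, 2), Sum.inl (j, true) => if i = j then some 0 else none
  | some (i, 0), Sum.inr m => if S.l m = i then some 0 else none
  | some (i, 1), Sum.inr m => if S.o m = i then some 0 else none
  | some (i, 2), Sum.inr m => if S.r m = i then some 0 else none
  | _, _ => none

def pm (S : Sys F V μ) : Matrix (Fin 3 ⊕ Option (V × Fin 3)) (Fin 3 ⊕ ((V × Bool) ⊕ μ)) (Option F)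
  | Sum.inl a, Sum.inl a' => some (if a = a' then 1 else 0)
  | Sum.inl a, Sum.inr j => Pp S j a
  | Sum.inr i, Sum.inl a => Qp S i a
  | Sum.inr i, Sum.inr j => Sp S i j

/-- The `(i, j)` block of `M`. -/
def blk {I J : Type} {b : ℕ} (M : Matrix (I × Fin b) (J × Fin b) F) (i : I) (j : J) :
    Matrix (Fin b) (Fin b) F := Matrix.of fun k l => M (i, k) (j, l)

theorem blk_of_spec {I J : Type} {b : ℕ} {A : Matrix I J (Option F)}
    {M : Matrix (I × Fin b) (J × Fin b) F} (hM : IsCompletion A b M) {i : I} {j : J} {a : F}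
    (h : A i j = some a) : blk M i j = a • (1 : Matrix (Fin b) (Fin b) F) := by
  ext k l
  simp [blk, hM i j a h k l, Matrix.one_apply]

theorem exact [Fintype V] [Fintype μ] (S : Sys F V μ) (b : ℕ)
    (M : Matrix ((Fin 3 ⊕ Option (V × Fin 3)) × Fin b) ((Fin 3 ⊕ ((V × Bool) ⊕ μ)) × Fin b) F)
    (hM : IsCompletion (pm S) b M) (hr : M.rank ≤ 3 * b) :
    ∃ z : V → Matrix (Fin b) (Fin b) F,
      (∀ m, z (S.l m) * z (S.r m) = z (S.o m)) ∧
      (∀ i j a, i ≠ j → S.d i j = some a → z i - z j = a • 1) ∧
      (∀ i a, S.k i = some a → z i = a • 1) := by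
  have key : ∀ i j, blk M (Sum.inr i) (Sum.inr j) = blk M (Sum.inr i) (Sum.inl 0) * blk M (Sum.inl 0) (Sum.inr j)
      + blk M (Sum.inr i) (Sum.inl 1) * blk M (Sum.inl 1) (Sum.inr j)
      + blk M (Sum.inr i) (Sum.inl 2) * blk M (Sum.inl 2) (Sum.inr j) := by
    intro i j
    ext k l
    have := schur_exact M (by
      intro a a' k l
      have := hM (Sum.inl a) (Sum.inl a') _ rfl k l
      rw [this]
      by_cases h1 : a = a' <;> by_cases h2 : k = l <;> simp [h1, h2]) (by simpa using hr) i j k l
    simp only [blk, Matrix.of_apply, Matrix.add_apply, Matrix.mul_apply]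
    rw [this, Fintype.sum_prod_type, Fin.sum_univ_three]
  have sp : ∀ {i j a}, pm S i j = some a → blk M i j = a • (1 : Matrix (Fin b) (Fin b) F) :=
    fun h => blk_of_spec hM h
  have hP : ∀ i, blk M (Sum.inl 1) (Sum.inr (Sum.inl (i, false))) =
      blk M (Sum.inr (some (i, 1))) (Sum.inl 2) := by
    intro i
    have h := key (some (i, 1)) (Sum.inl (i, false))
    rw [sp (i := Sum.inr (some (i, 1))) (j := Sum.inr (Sum.inl (i, false))) (a := 0) (by simp [pm, Sp]),
      sp (i := Sum.inr (some (i, 1))) (j := Sum.inl 0) (a := 0) rfl,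
      sp (i := Sum.inr (some (i, 1))) (j := Sum.inl 1) (a := -1) rfl,
      sp (i := Sum.inl 2) (j := Sum.inr (Sum.inl (i, false))) (a := 1) rfl] at h
    simp only [zero_smul, zero_mul, zero_add, neg_smul, one_smul, neg_mul, one_mul, mul_one] at h
    exact (neg_add_eq_zero.mp h.symm)
  have hMi : ∀ i, blk M (Sum.inr (some (i, 0))) (Sum.inl 0) =
      blk M (Sum.inr (some (i, 1))) (Sum.inl 2) := by
    intro i
    have h := key (some (i, 0)) (Sum.inl (i, false))
    rw [sp (i := Sum.inr (some (i, 0))) (j := Sum.inr (Sum.inl (i, false))) (a := 0) (by simp [pm, Sp]),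
      sp (i := Sum.inr (some (i, 0))) (j := Sum.inl 1) (a := -1) rfl,
      sp (i := Sum.inr (some (i, 0))) (j := Sum.inl 2) (a := 0) rfl,
      sp (i := Sum.inl 0) (j := Sum.inr (Sum.inl (i, false))) (a := 1) rfl, hP] at h
    simp only [zero_smul, zero_mul, add_zero, neg_smul, one_smul, neg_mul, one_mul, mul_one] at h
    exact add_neg_eq_zero.mp h.symm
  have hD2 : ∀ i, blk M (Sum.inl 1) (Sum.inr (Sum.inl (i, true))) =
      blk M (Sum.inr (some (i, 1))) (Sum.inl 2) := by
    intro i
    have h := key (some (i, 1)) (Sum.inl (i, true))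
    rw [sp (i := Sum.inr (some (i, 1))) (j := Sum.inr (Sum.inl (i, true))) (a := 0) (by simp [pm, Sp]),
      sp (i := Sum.inr (some (i, 1))) (j := Sum.inl 0) (a := 0) rfl,
      sp (i := Sum.inr (some (i, 1))) (j := Sum.inl 1) (a := -1) rfl,
      sp (i := Sum.inl 2) (j := Sum.inr (Sum.inl (i, true))) (a := 1) rfl] at h
    simp only [zero_smul, zero_mul, zero_add, neg_smul, one_smul, neg_mul, one_mul, mul_one] at h
    exact (neg_add_eq_zero.mp h.symm)
  have hD1 : ∀ i, blk M (Sum.inl 0) (Sum.inr (Sum.inl (i, true))) =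
      blk M (Sum.inr (some (i, 1))) (Sum.inl 2) := by
    intro i
    have h := key none (Sum.inl (i, true))
    rw [sp (i := Sum.inr none) (j := Sum.inr (Sum.inl (i, true))) (a := 0) rfl,
      sp (i := Sum.inr none) (j := Sum.inl 0) (a := 1) rfl,
      sp (i := Sum.inr none) (j := Sum.inl 1) (a := -1) rfl,
      sp (i := Sum.inr none) (j := Sum.inl 2) (a := 0) rfl, hD2] at h
    simp only [zero_smul, zero_mul, add_zero, neg_smul, one_smul, neg_mul, one_mul] at h
    exact add_neg_eq_zero.mp h.symm
  have hN : ∀ i, blk M (Sum.inr (some (i, 2))) (Sum.inl 2) =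
      blk M (Sum.inr (some (i, 1))) (Sum.inl 2) := by
    intro i
    have h := key (some (i, 2)) (Sum.inl (i, true))
    rw [sp (i := Sum.inr (some (i, 2))) (j := Sum.inr (Sum.inl (i, true))) (a := 0) (by simp [pm, Sp]),
      sp (i := Sum.inr (some (i, 2))) (j := Sum.inl 0) (a := -1) rfl,
      sp (i := Sum.inr (some (i, 2))) (j := Sum.inl 1) (a := 0) rfl,
      sp (i := Sum.inl 2) (j := Sum.inr (Sum.inl (i, true))) (a := 1) rfl, hD1] at h
    simp only [zero_smul, zero_mul, add_zero, neg_smul, one_smul, neg_mul, one_mul, mul_one] at h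
    exact (neg_add_eq_zero.mp h.symm).symm
  refine ⟨fun i => blk M (Sum.inr (some (i, 1))) (Sum.inl 2), ?_, ?_, ?_⟩
  · intro m
    have h1 := key (some (S.r m, 2)) (Sum.inr m)
    rw [sp (i := Sum.inr (some (S.r m, 2))) (j := Sum.inr (Sum.inr m)) (a := 0) (by simp [pm, Sp]),
      sp (i := Sum.inr (some (S.r m, 2))) (j := Sum.inl 0) (a := -1) rfl,
      sp (i := Sum.inr (some (S.r m, 2))) (j := Sum.inl 1) (a := 0) rfl,
      sp (i := Sum.inl 2) (j := Sum.inr (Sum.inr m)) (a := 1) rfl, hN] at h1
    simp only [zero_smul, zero_mul, add_zero, neg_smul, one_smul, neg_mul, one_mul, mul_one] at h1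
    replace h1 := neg_add_eq_zero.mp h1.symm
    have h2 := key (some (S.o m, 1)) (Sum.inr m)
    rw [sp (i := Sum.inr (some (S.o m, 1))) (j := Sum.inr (Sum.inr m)) (a := 0) (by simp [pm, Sp]),
      sp (i := Sum.inr (some (S.o m, 1))) (j := Sum.inl 0) (a := 0) rfl,
      sp (i := Sum.inr (some (S.o m, 1))) (j := Sum.inl 1) (a := -1) rfl,
      sp (i := Sum.inl 2) (j := Sum.inr (Sum.inr m)) (a := 1) rfl] at h2
    simp only [zero_smul, zero_mul, zero_add, neg_smul, one_smul, neg_mul, one_mul, mul_one] at h2
    replace h2 := neg_add_eq_zero.mp h2.symm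
    have h3 := key (some (S.l m, 0)) (Sum.inr m)
    rw [sp (i := Sum.inr (some (S.l m, 0))) (j := Sum.inr (Sum.inr m)) (a := 0) (by simp [pm, Sp]),
      sp (i := Sum.inr (some (S.l m, 0))) (j := Sum.inl 1) (a := -1) rfl,
      sp (i := Sum.inr (some (S.l m, 0))) (j := Sum.inl 2) (a := 0) rfl, hMi, h1, h2] at h3
    simp only [zero_smul, zero_mul, add_zero, neg_smul, one_smul, neg_mul, one_mul] at h3
    exact add_neg_eq_zero.mp h3.symm
  · intro i j a hij hd
    have h := key (some (i, 1)) (Sum.inl (j, false))
    rw [sp (i := Sum.inr (some (i, 1))) (j := Sum.inr (Sum.inl (j, false))) (a := a)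
        (by simp [pm, Sp, hij, hd]),
      sp (i := Sum.inr (some (i, 1))) (j := Sum.inl 0) (a := 0) rfl,
      sp (i := Sum.inr (some (i, 1))) (j := Sum.inl 1) (a := -1) rfl,
      sp (i := Sum.inl 2) (j := Sum.inr (Sum.inl (j, false))) (a := 1) rfl, hP] at h
    simp only [zero_smul, zero_mul, zero_add, neg_smul, one_smul, neg_mul, one_mul, mul_one] at h
    rw [h]
    abel
  · intro i a hk
    exact sp (i := Sum.inr (some (i, 1))) (j := Sum.inl 2) hk

def Qz {b : ℕ} (z : V → Matrix (Fin b) (Fin b) F) : Option (V × Fin 3) → Fin 3 → Matrix (Fin b) (Fin b) F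
  | none => ![1, -1, 0]
  | some (i, 0) => ![z i, -1, 0]
  | some (i, 1) => ![0, -1, z i]
  | some (i, 2) => ![-1, 0, z i]

def Pz {b : ℕ} (S : Sys F V μ) (z : V → Matrix (Fin b) (Fin b) F) :
    (V × Bool) ⊕ μ → Fin 3 → Matrix (Fin b) (Fin b) F
  | Sum.inl (i, false) => ![1, z i, 1]
  | Sum.inl (i, true) => ![z i, z i, 1]
  | Sum.inr m => ![z (S.r m), z (S.o m), 1]

def Dz {b : ℕ} (S : Sys F V μ) (z : V → Matrix (Fin b) (Fin b) F) :
    Option (V × Fin 3) → (V × Bool) ⊕ μ → Matrix (Fin b) (Fin b) F
  | some (i, 0), Sum.inr m => if S.l m = i then z (S.o m) - z i * z (S.r m) else 0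
  | some (i, 1), Sum.inl (j, false) =>
      if i = j then 0 else (S.d i j).elim 0 (fun a => a • 1 - (z i - z j))
  | _, _ => 0

def Mz {b : ℕ} (S : Sys F V μ) (z : V → Matrix (Fin b) (Fin b) F) :
    Fin 3 ⊕ Option (V × Fin 3) → Fin 3 ⊕ ((V × Bool) ⊕ μ) → Matrix (Fin b) (Fin b) F
  | Sum.inl a, Sum.inl a' => if a = a' then 1 else 0
  | Sum.inl a, Sum.inr j => Pz S z j a
  | Sum.inr i, Sum.inl a => Qz z i a
  | Sum.inr i, Sum.inr j => (∑ a, Qz z i a * Pz S z j a) + Dz S z i j

theorem Mz_spec {b : ℕ} (S : Sys F V μ) (z : V → Matrix (Fin b) (Fin b) F)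
    (hk : ∀ i a, S.k i = some a → z i = a • 1) (i) (j) (a : F) (h : pm S i j = some a) :
    Mz S z i j = a • (1 : Matrix (Fin b) (Fin b) F) := by
  rcases i with x | i
  · rcases j with y | j
    · simp only [pm, Option.some.injEq] at h
      subst h
      by_cases hxy : x = y <;> simp [Mz, hxy]
    · rcases j with ⟨j, bb⟩ | m
      · rcases bb with _ | _ <;> (fin_cases x <;> simp_all [pm, Pp, Mz, Pz] <;> simp [← h])
      · fin_cases x <;> simp_all [pm, Pp, Mz, Pz] <;> simp [← h]
  · rcases j with y | j
    · rcases i with _ | ⟨i, e⟩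
      · fin_cases y <;> simp_all [pm, Qp, Mz, Qz] <;> simp [← h]
      · fin_cases e <;> fin_cases y <;> simp_all [pm, Qp, Mz, Qz] <;> simp [← h]
    · simp only [pm] at h
      rcases i with _ | ⟨i, e⟩
      · rcases j with ⟨j, bb⟩ | m
        · rcases bb with _ | _
          · simp [Sp] at h
          · simp only [Sp, Option.some.injEq] at h
            subst h
            simp [Mz, Qz, Pz, Dz, Fin.sum_univ_three]
        · simp [Sp] at h
      · rcases j with ⟨j, bb⟩ | m
        · rcases bb with _ | _
          · fin_cases e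
            · by_cases hij : i = j
              · subst hij
                simp [Sp] at h
                subst h
                simp [Mz, Qz, Pz, Dz, Fin.sum_univ_three]
              · simp [Sp, hij] at h
            · by_cases hij : i = j
              · subst hij
                simp [Sp] at h
                subst h
                simp [Mz, Qz, Pz, Dz, Fin.sum_univ_three]
              · simp [Sp, hij] at h
                simp [Mz, Qz, Pz, Dz, Fin.sum_univ_three, hij, h]
                abel
            · simp [Sp] at h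
          · fin_cases e
            · simp [Sp] at h
            · by_cases hij : i = j
              · subst hij
                simp [Sp] at h
                subst h
                simp [Mz, Qz, Pz, Dz, Fin.sum_univ_three]
              · simp [Sp, hij] at h
            · by_cases hij : i = j
              · subst hij
                simp [Sp] at h
                subst h
                simp [Mz, Qz, Pz, Dz, Fin.sum_univ_three]
              · simp [Sp, hij] at h
        · fin_cases e
          · by_cases hij : S.l m = i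
            · subst hij
              simp [Sp] at h
              subst h
              simp [Mz, Qz, Pz, Dz, Fin.sum_univ_three]
              abel
            · simp [Sp, hij] at h
          · by_cases hij : S.o m = i
            · subst hij
              simp [Sp] at h
              subst h
              simp [Mz, Qz, Pz, Dz, Fin.sum_univ_three]
            · simp [Sp, hij] at h
          · by_cases hij : S.r m = i
            · subst hij
              simp [Sp] at h
              subst h
              simp [Mz, Qz, Pz, Dz, Fin.sum_univ_three]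
            · simp [Sp, hij] at h

theorem approx [Fintype V] [Fintype μ] (S : Sys F V μ) (b : ℕ)
    (z : V → Matrix (Fin b) (Fin b) F)
    (hk : ∀ i a, S.k i = some a → z i = a • 1)
    (s : Finset (((V × Bool) ⊕ μ) × Fin b))
    (hm : ∀ m c, (Sum.inr m, c) ∉ s → ∀ e, (z (S.l m) * z (S.r m)) e c = z (S.o m) e c)
    (hd : ∀ i j a, i ≠ j → S.d i j = some a → ∀ c, (Sum.inl (j, false), c) ∉ s → ∀ e,
      (z i - z j) e c = (a • (1 : Matrix (Fin b) (Fin b) F)) e c) :
    ∃ M, IsCompletion (pm S) b M ∧ M.rank ≤ 3 * b + s.card := by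
  classical
  set U : Matrix ((Fin 3 ⊕ Option (V × Fin 3)) × Fin b) (Fin 3 × Fin b) F :=
    Matrix.of fun x y => Mz S z x.1 (Sum.inl y.1) x.2 y.2 with hU
  set W : Matrix (Fin 3 × Fin b) ((Fin 3 ⊕ ((V × Bool) ⊕ μ)) × Fin b) F :=
    Matrix.of fun x y => Mz S z (Sum.inl x.1) y.1 x.2 y.2 with hW
  set D : Matrix ((Fin 3 ⊕ Option (V × Fin 3)) × Fin b) ((Fin 3 ⊕ ((V × Bool) ⊕ μ)) × Fin b) F :=
    Matrix.of fun x y => match x.1, y.1 with
      | Sum.inr i, Sum.inr j => Dz S z i j x.2 y.2
      | _, _ => 0 with hD
  refine ⟨Matrix.of fun x y => Mz S z x.1 y.1 x.2 y.2, ?_, ?_⟩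
  · intro i j a h k l
    simp only [Matrix.of_apply]
    rw [Mz_spec S z hk i j a h]
    simp [Matrix.one_apply]
  · have hdec : (Matrix.of fun (x : (Fin 3 ⊕ Option (V × Fin 3)) × Fin b) y =>
        Mz S z x.1 y.1 x.2 y.2) = U * W + D := by
      ext ⟨i, k⟩ ⟨j, l⟩
      simp only [hU, hW, hD, Matrix.of_apply, Matrix.add_apply, Matrix.mul_apply]
      rw [Fintype.sum_prod_type]
      have h2 : ∀ x : Fin 3, (∑ y, Mz S z i (Sum.inl x) k y * Mz S z (Sum.inl x) j y l) =
          (Mz S z i (Sum.inl x) * Mz S z (Sum.inl x) j) k l := fun x => rfl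
      simp only [h2]
      rw [← Matrix.sum_apply, ]
      rcases i with x | i
      · rcases j with y | j
        · simp [Mz]
        · simp [Mz]
      · rcases j with y | j
        · simp [Mz]
        · simp only [Mz, Matrix.add_apply]
    rw [hdec]
    refine le_trans (rank_add_le' _ _) (add_le_add ?_ ?_)
    · refine le_trans (rank_mul_le_left _ _) (le_trans (rank_le_card_width _) ?_)
      simp
    · refine le_trans (rank_le_cols D (s.map ⟨fun x => (Sum.inr x.1, x.2), ?_⟩) ?_) ?_
      · intro x y hxy
        simp only [Prod.mk.injEq, Sum.inr.injEq] at hxy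
        exact Prod.ext hxy.1 hxy.2
      · rintro ⟨j, c⟩ hj ⟨i, k⟩
        rcases i with x | i
        · simp [hD]
        rcases j with y | j
        · simp [hD]
        have hjs : (j, c) ∉ s := by
          intro hh
          apply hj
          simp only [Finset.mem_map]
          exact ⟨(j, c), hh, rfl⟩
        simp only [hD, Matrix.of_apply]
        rcases i with _ | ⟨i, e⟩
        · rfl
        · rcases j with ⟨j, bb⟩ | m
          · rcases bb with _ | _
            · fin_cases e
              · rfl
              · change (if i = j then 0 else (S.d i j).elim 0 (fun a => a • 1 - (z i - z j)) :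
                    Matrix (Fin b) (Fin b) F) k c = 0
                by_cases hij : i = j
                · simp [hij]
                · simp only [hij, if_false]
                  rcases hdd : S.d i j with _ | a
                  · simp
                  · have := hd i j a hij hdd c hjs k
                    simp only [Option.elim]
                    rw [Matrix.sub_apply, this, sub_self]
              · rfl
            · fin_cases e <;> rfl
          · fin_cases e
            · change (if S.l m = i then z (S.o m) - z i * z (S.r m) else 0 :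
                    Matrix (Fin b) (Fin b) F) k c = 0
              by_cases hij : S.l m = i
              · subst hij
                simp only [if_true]
                rw [Matrix.sub_apply, hm m c hjs k, sub_self]
              · simp [hij]
            · rfl
            · rfl
      · simp

end

section concrete
variable (F : Type u) [Field F]

def X (N : ℕ) : Matrix (Fin N) (Fin N) F := Matrix.of fun a c => if (a : ℕ) = c + 1 then 1 else 0

def Y (N : ℕ) : Matrix (Fin N) (Fin N) F := Matrix.of fun a c => if (a : ℕ) + 1 = c then -((c : ℕ) : F) else 0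

theorem X_pow (N k : ℕ) (a c : Fin N) : (X F N ^ k) a c = if (a : ℕ) = c + k then 1 else 0 := by
  induction k generalizing a with
  | zero => simp [Matrix.one_apply, Fin.ext_iff]
  | succ k ih =>
    rw [pow_succ', Matrix.mul_apply]
    by_cases h : (a : ℕ) = c + (k + 1)
    · rw [if_pos h]
      have hc : (c : ℕ) + k < N := by omega
      rw [Finset.sum_eq_single (⟨c + k, hc⟩ : Fin N)]
      · rw [ih, if_pos rfl, mul_one]
        simp only [X, Matrix.of_apply]
        rw [if_pos (by omega)]
      · intro e _ he
        rw [ih, if_neg, mul_zero]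
        intro h'
        exact he (Fin.ext h')
      · simp
    · rw [if_neg h]
      apply Finset.sum_eq_zero
      intro e _
      rw [ih]
      simp only [X, Matrix.of_apply]
      by_cases h1 : (a : ℕ) = e + 1
      · rw [if_neg (by omega : ¬ ((e : ℕ) = c + k)), mul_zero]
      · rw [if_neg h1, zero_mul]

theorem XY_apply (N : ℕ) (a c : Fin N) (hc : (c : ℕ) + 1 < N) :
    (X F N * Y F N - Y F N * X F N) a c = (1 : Matrix (Fin N) (Fin N) F) a c := by
  have h1 : (X F N * Y F N) a c = if a = c then -((c : ℕ) : F) else 0 := by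
    rw [Matrix.mul_apply]
    by_cases hc0 : (c : ℕ) = 0
    · have : (((c : ℕ) : F)) = 0 := by rw [hc0]; simp
      rw [this]
      simp only [neg_zero, ite_self]
      apply Finset.sum_eq_zero
      intro e _
      simp only [Y, Matrix.of_apply]
      rw [if_neg (by omega), mul_zero]
    · have hlt : (c : ℕ) - 1 < N := by omega
      rw [Finset.sum_eq_single (⟨(c : ℕ) - 1, hlt⟩ : Fin N)]
      · simp only [X, Y, Matrix.of_apply]
        rw [if_pos (by omega : (c : ℕ) - 1 + 1 = c)]
        by_cases h : a = c
        · subst h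
          rw [if_pos (by omega), if_pos rfl, one_mul]
        · rw [if_neg, if_neg h, zero_mul]
          intro h'
          exact h (Fin.ext (by omega))
      · intro e _ he
        simp only [Y, Matrix.of_apply]
        rw [if_neg, mul_zero]
        intro h'
        exact he (Fin.ext (by simp only; omega))
      · simp
  have h2 : (Y F N * X F N) a c = if a = c then -((c : ℕ) : F) - 1 else 0 := by
    rw [Matrix.mul_apply]
    rw [Finset.sum_eq_single (⟨(c : ℕ) + 1, hc⟩ : Fin N)]
    · simp only [X, Y, Matrix.of_apply, if_true, mul_one]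
      by_cases h : a = c
      · subst h
        rw [if_pos rfl, if_pos rfl]
        push_cast
        ring
      · rw [if_neg, if_neg h]
        intro h'
        exact h (Fin.ext (by omega))
    · intro e _ he
      simp only [X, Matrix.of_apply]
      rw [if_neg, mul_zero]
      intro h'
      exact he (Fin.ext h')
    · simp
  rw [Matrix.sub_apply, h1, h2, Matrix.one_apply]
  by_cases h : a = c <;> simp [h]

/-- The reordering permutation sending `j + M r` to `r + p j`. -/
def sg (p M : ℕ) : Fin (p * M) ≃ Fin (p * M) :=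
  (finProdFinEquiv.symm.trans (Equiv.prodComm (Fin p) (Fin M))).trans
    (finProdFinEquiv.trans (finCongr (Nat.mul_comm M p)))

theorem sg_val (p M : ℕ) (c : Fin (p * M)) : (sg p M c : ℕ) = (c : ℕ) / M + p * ((c : ℕ) % M) := by
  simp [sg, finProdFinEquiv, Fin.divNat, Fin.modNat]

def T (p M : ℕ) : Matrix (Fin (p * M)) (Fin (p * M)) F :=
  Matrix.of fun a c => if a = sg p M c then 1 else 0

def T' (p M : ℕ) : Matrix (Fin (p * M)) (Fin (p * M)) F :=
  Matrix.of fun a c => if c = sg p M a then 1 else 0

theorem T_mul_T' (p M : ℕ) : T F p M * T' F p M = 1 := by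
  ext a c
  rw [Matrix.mul_apply, Matrix.one_apply]
  rw [Finset.sum_eq_single ((sg p M).symm c)]
  · simp [T, T']
  · intro e _ he
    simp only [T', Matrix.of_apply]
    rw [if_neg, mul_zero]
    intro h
    apply he
    rw [h]
    simp
  · simp

theorem TX_apply (p M : ℕ) (hM : 0 < M) (a c : Fin (p * M)) (hc : (c : ℕ) % M + 1 < M) :
    (T F p M * X F (p * M)) a c = (X F (p * M) ^ p * T F p M) a c := by
  have hc1 : (c : ℕ) + 1 < p * M := by
    have h1 : (c : ℕ) < p * M := c.2
    by_contra h
    have h2 : (c : ℕ) + 1 = p * M := by omega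
    have h3 : ((c : ℕ) + 1) % M = 0 := by rw [h2]; simp
    rw [Nat.add_mod, Nat.mod_eq_of_lt (a := (c : ℕ) % M + 1 % M)] at h3
    · have : 1 % M = 1 := Nat.mod_eq_of_lt (by omega)
      omega
    · have : 1 % M = 1 := Nat.mod_eq_of_lt (by omega)
      omega
  have hs : ((sg p M ⟨(c : ℕ) + 1, hc1⟩ : Fin (p * M)) : ℕ) = (sg p M c : ℕ) + p := by
    rw [sg_val, sg_val]
    have h1 : ((c : ℕ) + 1) % M = (c : ℕ) % M + 1 := by
      rw [Nat.add_mod, Nat.mod_eq_of_lt (a := 1) (by omega), Nat.mod_eq_of_lt hc]
    have h2 : ((c : ℕ) + 1) / M = (c : ℕ) / M := by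
      have e1 := Nat.div_add_mod ((c : ℕ) + 1) M
      have e2 := Nat.div_add_mod (c : ℕ) M
      rw [h1] at e1
      have : M * (((c : ℕ) + 1) / M) = M * ((c : ℕ) / M) := by omega
      exact Nat.eq_of_mul_eq_mul_left hM this
    simp only
    rw [h1, h2]
    ring
  have h1 : (T F p M * X F (p * M)) a c = if (a : ℕ) = (sg p M c : ℕ) + p then 1 else 0 := by
    rw [Matrix.mul_apply, Finset.sum_eq_single (⟨(c : ℕ) + 1, hc1⟩ : Fin (p * M))]
    · simp only [T, X, Matrix.of_apply, if_true, mul_one]
      congr 1
      rw [Fin.ext_iff, hs]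
    · intro e _ he
      simp only [X, Matrix.of_apply]
      rw [if_neg, mul_zero]
      intro h'
      exact he (Fin.ext h')
    · simp
  have h2 : (X F (p * M) ^ p * T F p M) a c = if (a : ℕ) = (sg p M c : ℕ) + p then 1 else 0 := by
    rw [Matrix.mul_apply, Finset.sum_eq_single (sg p M c)]
    · rw [X_pow]
      simp [T]
    · intro e _ he
      simp only [T, Matrix.of_apply]
      rw [if_neg he, mul_zero]
    · simp
  rw [h1, h2]

end concrete

section obstruction
variable {F : Type u} [Field F]
open Polynomial

theorem aeval_comm {A : Type u} [Ring A] [Algebra F A] (x y : A) (h : x * y - y * x = 1) (f : F[X]) :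
    aeval x f * y - y * aeval x f = aeval x (derivative f) := by
  induction f using Polynomial.induction_on' with
  | add f g hf hg =>
    simp only [map_add, add_mul, mul_add, ← hf, ← hg]
    abel
  | monomial n a =>
    have key : ∀ n : ℕ, x ^ n * y - y * x ^ n = n • x ^ (n - 1) := by
      intro n
      induction n with
      | zero => simp
      | succ n ih =>
        have h1 : x ^ n * y = y * x ^ n + n • x ^ (n - 1) := by rw [← ih]; abel
        have h2 : x * y = y * x + 1 := by rw [← h]; abel
        rw [pow_succ', mul_assoc, h1, mul_add, ← mul_assoc, h2]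
        rcases n with _ | n
        · simp
        · simp only [Nat.add_sub_cancel, add_mul, one_mul, mul_assoc]
          rw [mul_smul_comm, ← pow_succ' x n, ← pow_succ' x (n + 1)]
          rw [succ_nsmul (x ^ (n + 1)) (n + 1)]
          abel
    rw [derivative_monomial, aeval_monomial, aeval_monomial]
    have := key n
    have h3 : (algebraMap F A) a * x ^ n * y - y * ((algebraMap F A) a * x ^ n)
        = (algebraMap F A) a * (x ^ n * y - y * x ^ n) := by
      rw [mul_sub, mul_assoc, ← mul_assoc y, ← Algebra.commutes a y, mul_assoc]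
    rw [h3, this, map_mul, map_natCast, nsmul_eq_mul, mul_assoc]

theorem no_sol {A : Type u} [Ring A] [Nontrivial A] [Algebra F A] [FiniteDimensional F A]
    (p : ℕ) [hp : ExpChar F p] (x y t s : A) (h : x * y - y * x = 1) (hts : t * s = 1)
    (hst : s * t = 1) (hx : x ^ p * t = t * x) : False := by
  have hint : IsIntegral F x := IsIntegral.of_finite F x
  set m := minpoly F x with hm
  have hmonic : m.Monic := minpoly.monic hint
  have hdeg : 0 < m.natDegree := minpoly.natDegree_pos hint
  have h1 : aeval x (derivative m) = 0 := by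
    rw [← aeval_comm x y h m, hm, minpoly.aeval, zero_mul, mul_zero, sub_zero]
  have h2 : m ∣ derivative m := minpoly.dvd F x h1
  have h3 : derivative m = 0 := by
    by_contra hne
    have := natDegree_le_of_dvd h2 hne
    have := natDegree_derivative_lt (p := m) (by omega)
    omega
  have h4 : expand F p (contract p m) = m := expand_contract' p h3
  rcases hp with _ | hprime
  · -- characteristic zero
    have := Polynomial.derivative_eq_zero.mp h3
    omega
  · set g := contract p m with hg
    have hg0 : g ≠ 0 := by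
      intro h0
      rw [h0, map_zero] at h4
      exact hmonic.ne_zero h4.symm
    have hdg : m.natDegree = g.natDegree * p := by
      rw [← h4, natDegree_expand]
    have hxp : x ^ p = t * x * s := by
      rw [← hx, mul_assoc, hts, mul_one]
    have h5 : aeval (x ^ p) g = 0 := by
      rw [← expand_aeval, h4, hm, minpoly.aeval]
    have h6 : aeval x g = 0 := by
      have hconj : ∀ f : F[X], aeval (t * x * s) f = t * aeval x f * s := by
        intro f
        induction f using Polynomial.induction_on' with
        | add f g hf hg => simp only [map_add, mul_add, add_mul, hf, hg]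
        | monomial n a =>
          have key : ∀ n : ℕ, (t * x * s) ^ n = t * x ^ n * s := by
            intro n
            induction n with
            | zero => simp [hts]
            | succ n ih =>
              rw [pow_succ, ih, pow_succ]
              simp only [mul_assoc]
              rw [← mul_assoc s t, hst, one_mul]
          rw [aeval_monomial, aeval_monomial, key]
          rw [← mul_assoc t, ← Algebra.commutes a t]
          simp only [mul_assoc]
      rw [hxp, hconj] at h5
      have : s * (t * aeval x g * s) * t = 0 := by rw [h5]; simp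
      rw [mul_assoc, mul_assoc, mul_assoc, hst, mul_one, ← mul_assoc, hst, one_mul] at this
      exact this
    have h7 : m ∣ g := minpoly.dvd F x h6
    have h8 := natDegree_le_of_dvd h7 hg0
    have hp2 : 2 ≤ p := hprime.two_le
    have : g.natDegree ≤ 0 := by nlinarith
    have : m.natDegree = 0 := by rw [hdg]; simp; omega
    omega

end obstruction

section final

theorem mr_le {F : Type u} [Field F] {I J : Type} [Fintype I] [Fintype J]
    {A : Matrix I J (Option F)} {b r : ℕ} {M : Matrix (I × Fin b) (J × Fin b) F}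
    (hM : IsCompletion A b M) (hr : M.rank ≤ r) : mr A b ≤ r :=
  le_trans (Nat.sInf_le ⟨M, hM, rfl⟩) hr

theorem exists_mr {F : Type u} [Field F] {I J : Type} [Fintype I] [Fintype J]
    (A : Matrix I J (Option F)) (b : ℕ) :
    ∃ M : Matrix (I × Fin b) (J × Fin b) F, IsCompletion A b M ∧ M.rank = mr A b := by
  have hne : {r | ∃ M : Matrix (I × Fin b) (J × Fin b) F, IsCompletion A b M ∧ M.rank = r}.Nonempty := by
    refine ⟨_, Matrix.of fun x y => (A x.1 y.1).elim 0 (fun a => if x.2 = y.2 then a else 0), ?_, rfl⟩
    intro i j a h k l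
    simp [h]
  exact Nat.sInf_mem hne

theorem mr_reindex {F : Type u} [Field F] {I J I' J' : Type} [Fintype I] [Fintype J]
    [Fintype I'] [Fintype J'] (e : I' ≃ I) (f : J' ≃ J)
    (A : Matrix I J (Option F)) (b : ℕ) : mr (A.submatrix e f) b = mr A b := by
  apply le_antisymm
  · obtain ⟨M, hM, hr⟩ := exists_mr A b
    refine mr_le (M := M.submatrix (Prod.map e id) (Prod.map f id)) ?_ ?_
    · intro i j a h k l
      exact hM (e i) (f j) a h k l
    · rw [← hr]
      exact rank_submatrix_le _ _ _
  · obtain ⟨M, hM, hr⟩ := exists_mr (A.submatrix e f) b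
    refine mr_le (M := M.submatrix (Prod.map e.symm id) (Prod.map f.symm id)) ?_ ?_
    · intro i j a h k l
      exact hM (e.symm i) (f.symm j) a (by simpa using h) k l
    · rw [← hr]
      exact rank_submatrix_le _ _ _

def TheSys (F : Type u) [Field F] (q : ℕ) : Sys F (Fin (q + 2) ⊕ Fin 6) (Fin (q + 1) ⊕ Fin 5) where
  l := Sum.elim (fun _ => Sum.inl 1) ![Sum.inl 1, Sum.inr 0, Sum.inr 3, Sum.inl (Fin.last _), Sum.inr 3]
  r := Sum.elim (fun i => Sum.inl i.castSucc) ![Sum.inr 0, Sum.inl 1, Sum.inr 4, Sum.inr 3, Sum.inl 1]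
  o := Sum.elim (fun i => Sum.inl i.succ) ![Sum.inr 1, Sum.inr 2, Sum.inl 0, Sum.inr 5, Sum.inr 5]
  d := fun i j => if i = Sum.inr 1 ∧ j = Sum.inr 2 then some 1 else none
  k := fun i => if i = Sum.inl 0 then some 1 else none

theorem lower (F : Type u) [Field F] (q : ℕ) (hq : ExpChar F (q + 1)) (b : ℕ) (hb : 0 < b) :
    3 * b < mr (pm (TheSys F q)) b := by
  by_contra hle
  push Not at hle
  obtain ⟨M, hM, hr⟩ := exists_mr (pm (TheSys F q)) b
  obtain ⟨z, hm, hd, hk⟩ := exact (TheSys F q) b M hM (by rw [hr]; exact hle)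
  have : Nonempty (Fin b) := ⟨⟨0, hb⟩⟩
  have hone : z (Sum.inl 0) = 1 := by
    have := hk (Sum.inl 0) 1 (by simp [TheSys])
    simpa using this
  have hpow : ∀ n (hn : n < q + 2), z (Sum.inl ⟨n, hn⟩) = z (Sum.inl 1) ^ n := by
    intro n
    induction n with
    | zero => intro hn; simpa using hone
    | succ n ih =>
      intro hn
      have h1 := hm (Sum.inl ⟨n, by omega⟩)
      simp only [TheSys, Sum.elim_inl] at h1
      have h2 := ih (by omega)
      rw [pow_succ', ← h2]
      exact h1.symm
  have hlast : z (Sum.inl (Fin.last (q + 1))) = z (Sum.inl 1) ^ (q + 1) := hpow (q + 1) (by omega)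
  have e0 := hm (Sum.inr 0)
  have e1 := hm (Sum.inr 1)
  have e2 := hm (Sum.inr 2)
  have e3 := hm (Sum.inr 3)
  have e4 := hm (Sum.inr 4)
  simp [TheSys] at e0 e1 e2 e3 e4
  have e5 := hd (Sum.inr 1) (Sum.inr 2) 1 (by simp) (by simp [TheSys])
  rw [one_smul] at e5
  refine no_sol (F := F) (q + 1) (z (Sum.inl 1)) (z (Sum.inr 0)) (z (Sum.inr 3)) (z (Sum.inr 4)) ?_ ?_ ?_ ?_
  · rw [e0, e1, e5]
  · rw [e2, hone]
  · rw [mul_eq_one_comm, e2, hone]
  · rw [← hlast, e3, e4]

def zz (F : Type u) [Field F] (q M : ℕ) :
    Fin (q + 2) ⊕ Fin 6 → Matrix (Fin ((q + 1) * M)) (Fin ((q + 1) * M)) F :=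
  Sum.elim (fun i => X F _ ^ (i : ℕ))
    ![Y F _, X F _ * Y F _, Y F _ * X F _, T F (q + 1) M, T' F (q + 1) M,
      X F _ ^ (q + 1) * T F (q + 1) M]

theorem upper (F : Type u) [Field F] (q : ℕ) (M : ℕ) (hM : 0 < M) :
    mr (pm (TheSys F q)) ((q + 1) * M) ≤ 3 * ((q + 1) * M) + (q + 2) := by
  classical
  set b := (q + 1) * M with hb
  set s1 : Finset (Fin b) := Finset.univ.filter (fun c : Fin b => (c : ℕ) + 1 = b) with hs1
  set s2 : Finset (Fin b) := Finset.univ.filter (fun c : Fin b => (c : ℕ) % M + 1 = M) with hs2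
  set s : Finset ((((Fin (q + 2) ⊕ Fin 6) × Bool) ⊕ (Fin (q + 1) ⊕ Fin 5)) × Fin b) :=
    s1.image (fun c => (Sum.inl (Sum.inr 2, false), c)) ∪
      s2.image (fun c => (Sum.inr (Sum.inr 4), c)) with hs
  have hcard : s.card ≤ q + 2 := by
    have h1 : s1.card ≤ 1 := by
      rw [Finset.card_le_one]
      intro a ha c hc
      simp only [hs1, Finset.mem_filter, Finset.mem_univ, true_and] at ha hc
      exact Fin.ext (by omega)
    have h2 : s2.card ≤ q + 1 := by
      have : s2.card ≤ (Finset.range (q + 1)).card := by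
        apply Finset.card_le_card_of_injOn (fun c : Fin b => (c : ℕ) / M)
        · intro c _
          simp only [Finset.coe_range, Set.mem_Iio]
          rw [Nat.div_lt_iff_lt_mul hM]
          exact c.2
        · intro a ha c hc hac
          simp only [hs2, Finset.coe_filter, Finset.mem_univ, true_and, Set.mem_ofPred_eq] at ha hc
          simp only at hac
          have e1 := Nat.div_add_mod (a : ℕ) M
          have e2 := Nat.div_add_mod (c : ℕ) M
          rw [hac] at e1
          exact Fin.ext (by omega)
      simpa using this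
    calc s.card ≤ _ := Finset.card_union_le _ _
      _ ≤ s1.card + s2.card := add_le_add Finset.card_image_le Finset.card_image_le
      _ ≤ q + 2 := by omega
  suffices H : ∃ Mt, IsCompletion (pm (TheSys F q)) b Mt ∧ Mt.rank ≤ 3 * b + s.card by
    obtain ⟨Mt, hMt, hr⟩ := H
    exact mr_le hMt (le_trans hr (by omega))
  apply approx (TheSys F q) b (zz F q M) ?_ s ?_ ?_
  · intro i a h
    simp only [TheSys] at h
    split_ifs at h with h0
    subst h0
    simp only [Option.some.injEq] at h
    subst h
    simp [zz]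
  · intro m c hc e
    rcases m with i | m
    · simp [TheSys, zz, pow_succ']
    · fin_cases m
      · simp [TheSys, zz]
      · simp [TheSys, zz]
      · simp only [TheSys, zz]
        simp
        exact congrFun (congrFun (T_mul_T' F (q + 1) M) e) c
      · simp [TheSys, zz]
      · simp only [TheSys, zz]
        have hc2 : c ∉ s2 := by
          intro hh
          apply hc
          rw [hs]
          apply Finset.mem_union_right
          exact Finset.mem_image.mpr ⟨c, hh, rfl⟩
        simp only [hs2, Finset.mem_filter, Finset.mem_univ, true_and] at hc2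
        have hlt : (c : ℕ) % M < M := Nat.mod_lt _ hM
        have := TX_apply F (q + 1) M hM e c (by omega)
        simpa using this
  · intro i j a hij h c hc e
    simp only [TheSys] at h
    split_ifs at h with h0
    obtain ⟨rfl, rfl⟩ := h0
    simp only [Option.some.injEq] at h
    subst h
    have hc1 : c ∉ s1 := by
      intro hh
      apply hc
      rw [hs]
      apply Finset.mem_union_left
      exact Finset.mem_image.mpr ⟨c, hh, rfl⟩
    simp only [hs1, Finset.mem_filter, Finset.mem_univ, true_and] at hc1
    have hlt : (c : ℕ) < b := c.2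
    have := XY_apply F b e c (by omega)
    rw [one_smul, ← this]
    simp [zz]
    rfl

theorem fmr_lt (F : Type u) [Field F] (q : ℕ) (hq : ExpChar F (q + 1)) (b : ℕ+) :
    fmr (pm (TheSys F q)) < (mr (pm (TheSys F q)) (b : ℕ) : ℝ) / ((b : ℕ) : ℝ) := by
  have h3 : fmr (pm (TheSys F q)) ≤ 3 := by
    apply le_of_forall_pos_le_add
    intro ε hε
    obtain ⟨M, hM⟩ := exists_nat_gt ((q + 2 : ℝ) / ε)
    have hMpos : 0 < M := by
      have : (0 : ℝ) < M := lt_trans (by positivity) hM
      exact_mod_cast this
    have hbpos : 0 < (q + 1) * M := by positivity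
    have hle : fmr (pm (TheSys F q)) ≤
        (mr (pm (TheSys F q)) ((q + 1) * M) : ℝ) / (((q + 1) * M : ℕ) : ℝ) := by
      have := ciInf_le (f := fun b : ℕ+ => (mr (pm (TheSys F q)) (b : ℕ) : ℝ) / ((b : ℕ) : ℝ))
        ⟨0, by rintro _ ⟨b, rfl⟩; positivity⟩ ⟨(q + 1) * M, hbpos⟩
      simpa [fmr] using this
    refine le_trans hle ?_
    have hup : (mr (pm (TheSys F q)) ((q + 1) * M) : ℝ) ≤ 3 * (((q + 1) * M : ℕ) : ℝ) + (q + 2) := by
      exact_mod_cast upper F q M hMpos
    have hbR : (0 : ℝ) < (((q + 1) * M : ℕ) : ℝ) := by exact_mod_cast hbpos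
    rw [div_le_iff₀ hbR]
    have hMε : (q + 2 : ℝ) ≤ ε * M := by
      rw [div_lt_iff₀ hε] at hM
      linarith
    have hge : (M : ℝ) ≤ (((q + 1) * M : ℕ) : ℝ) := by
      have : M ≤ (q + 1) * M := Nat.le_mul_of_pos_left _ (by omega)
      exact_mod_cast this
    nlinarith
  refine lt_of_le_of_lt h3 ?_
  have hbpos : (0 : ℝ) < ((b : ℕ) : ℝ) := by exact_mod_cast b.2
  rw [lt_div_iff₀ hbpos]
  exact_mod_cast lower F q hq b b.2

end final

end Pool.Agent.Helper81.Fmr
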